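import Pool.Graph.R_seed8.TH954.SEt2
import Pool.Graph.R_pool_sql_team_seeded_63374d34.N874.TC.Fin
import Pool.Graph.R_pool_sql_team_seeded_63374d34.N713.QM.GFC

/-!
# Project SX (helper82): cocycles on the algebraic closure

The 2-primary part of the Tate-Shafarevich group in terms of the algebraic closures and of the completions
of project TH954, from the form with the separable closures of project QM.
-/

set_option autoImplicit false
set_option linter.all false

open Polynomial IsDedekindDomain NumberField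
open scoped Classical

namespace Pool.Agent.Helper82.SX

open Pool.Agent.TH954 (pm AlgPt Compat IsCocycle TrivialOver pm_pm pm_injective)
open Pool.Agent.TH115.GD (Pt Sep Comp LocTriv IsCoc rs)

/-- the algebraic closures of isomorphic fields -/
theorem exists_closure_equiv {L₁ L₂ : Type} [Field L₁] [Field L₂] [CharZero L₂] (φ : L₁ ≃+* L₂) :
    ∃ ψ : AlgebraicClosure L₁ ≃+* Sep L₂,
      ∀ x : L₁, ψ (algebraMap L₁ (AlgebraicClosure L₁) x) = algebraMap L₂ (Sep L₂) (φ x) := by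
  haveI : IsSepClosed (AlgebraicClosure L₂) := inferInstance
  haveI : IsSepClosure L₂ (AlgebraicClosure L₂) := ⟨inferInstance, inferInstance⟩
  let ψ₁ : AlgebraicClosure L₁ ≃+* AlgebraicClosure L₂ :=
    IsAlgClosure.equivOfEquiv (AlgebraicClosure L₁) (AlgebraicClosure L₂) φ
  let ψ₂ : AlgebraicClosure L₂ ≃ₐ[L₂] Sep L₂ := IsSepClosure.equiv L₂ (AlgebraicClosure L₂) (Sep L₂)
  refine ⟨ψ₁.trans ψ₂.toRingEquiv, fun x => ?_⟩
  change ψ₂ (ψ₁ _) = _
  rw [IsAlgClosure.equivOfEquiv_algebraMap]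
  exact ψ₂.commutes _

variable {K : Type} [Field K] [CharZero K] (E : WeierstrassCurve K)

/-- the identification of the closures of `K` -/
noncomputable def eK (K : Type) [Field K] [CharZero K] : Sep K ≃ₐ[K] AlgebraicClosure K :=
  haveI : IsSepClosure K (AlgebraicClosure K) := ⟨inferInstance, inferInstance⟩
  IsSepClosure.equiv K (Sep K) (AlgebraicClosure K)

/-- transport of cocycles -/
noncomputable def tr (ξ : (AlgebraicClosure K ≃ₐ[K] AlgebraicClosure K) → AlgPt E K) :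
    (Sep K ≃ₐ[K] Sep K) → Pt E (Sep K) :=
  fun σ => pm E ((eK K).symm : AlgebraicClosure K →ₐ[K] Sep K) (ξ ((eK K).autCongr σ))

theorem tr_coc {ξ : (AlgebraicClosure K ≃ₐ[K] AlgebraicClosure K) → AlgPt E K}
    (h : IsCocycle E ξ) : IsCoc E (tr E ξ) := by
  obtain ⟨h1, F, hF, h2⟩ := h
  refine ⟨?_, fun σ τ => ?_⟩
  · -- locally constant
    rw [IsLocallyConstant.iff_exists_open]
    intro σ
    let F' : IntermediateField K (Sep K) := F.map ((eK K).symm : AlgebraicClosure K →ₐ[K] Sep K)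
    haveI : FiniteDimensional K F' := Pool.Agent.TH954.finite_map hF _
    refine ⟨(fun τ => σ * τ) '' (F'.fixingSubgroup : Set (Sep K ≃ₐ[K] Sep K)), ?_,
      ⟨1, one_mem _, mul_one σ⟩, ?_⟩
    · exact (Homeomorph.mulLeft σ).isOpenMap _ (IntermediateField.fixingSubgroup_isOpen F')
    · rintro _ ⟨τ, hτ, rfl⟩
      unfold tr
      congr 1
      apply h2
      intro x hx
      have h3 := (IntermediateField.mem_fixingSubgroup_iff _ _).1 hτ ((eK K).symm x) ⟨x, hx, rfl⟩
      change eK K (σ (τ ((eK K).symm x))) = eK K (σ ((eK K).symm x))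
      rw [h3]
  · unfold tr
    rw [map_mul, h1, map_add]
    congr 1
    unfold Pool.Agent.TH954.act
    rw [pm_pm]
    change _ = pm E (rs K σ) (pm E _ _)
    rw [pm_pm]
    congr 2
    apply AlgHom.ext
    intro x
    change (eK K).symm (eK K (σ ((eK K).symm x))) = σ ((eK K).symm x)
    rw [AlgEquiv.symm_apply_apply]

theorem tr_loc {ξ : (AlgebraicClosure K ≃ₐ[K] AlgebraicClosure K) → AlgPt E K}
    {L₁ L₂ : Type} [Field L₁] [Field L₂] [CharZero L₂] [Algebra K L₁] [Algebra K L₂] (φ : L₁ ≃+* L₂)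
    (hφ : ∀ x : K, φ (algebraMap K L₁ x) = algebraMap K L₂ x)
    (h : TrivialOver E ξ L₁) : LocTriv E L₂ (Sep L₂) (tr E ξ) := by
  obtain ⟨ι₁, Q, h1⟩ := h
  obtain ⟨ψ, hψ⟩ := exists_closure_equiv φ
  let ψ' : AlgebraicClosure L₁ →ₐ[K] Sep L₂ :=
    { (ψ : AlgebraicClosure L₁ →+* Sep L₂) with
      commutes' := fun x => by
        change ψ (algebraMap K (AlgebraicClosure L₁) x) = _
        rw [IsScalarTower.algebraMap_apply K L₁ (AlgebraicClosure L₁), hψ, hφ,
          ← IsScalarTower.algebraMap_apply] }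
  refine ⟨(ψ'.comp ι₁).comp ((eK K : Sep K →ₐ[K] AlgebraicClosure K)), pm E ψ' Q,
    fun τ σ hτσ => ?_⟩
  have hcomm : ∀ x : AlgebraicClosure L₁, ψ.symm (τ (ψ x)) = ψ.symm (τ (ψ x)) := fun _ => rfl
  let σ₁ : AlgebraicClosure L₁ ≃ₐ[L₁] AlgebraicClosure L₁ :=
    AlgEquiv.ofRingEquiv (f := (ψ.trans τ.toRingEquiv).trans ψ.symm) (fun x => by
      change ψ.symm (τ (ψ (algebraMap L₁ (AlgebraicClosure L₁) x))) = _
      rw [hψ, τ.commutes, ← hψ, RingEquiv.symm_apply_apply])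
  have hσ₁ : ∀ x, ψ (σ₁ x) = τ (ψ x) := fun x => by
    change ψ (ψ.symm (τ (ψ x))) = _
    rw [RingEquiv.apply_symm_apply]
  have hc : Compat ι₁ σ₁ ((eK K).autCongr σ) := by
    intro z
    apply ψ.injective
    rw [hσ₁]
    have h2 := hτσ ((eK K).symm z)
    change τ (ψ (ι₁ (eK K ((eK K).symm z)))) = ψ (ι₁ (eK K (σ ((eK K).symm z)))) at h2
    rw [AlgEquiv.apply_symm_apply] at h2
    change ψ (ι₁ (eK K (σ ((eK K).symm z)))) = _
    exact h2.symm
  have h3 := congrArg (pm E ψ') (h1 _ _ hc)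
  rw [pm_pm, map_sub] at h3
  unfold tr
  change pm E _ (pm E _ (ξ _)) = pm E (rs K τ) (pm E ψ' Q) - pm E ψ' Q
  rw [pm_pm, pm_pm]
  have e1 : (((ψ'.comp ι₁).comp ((eK K : Sep K →ₐ[K] AlgebraicClosure K))).restrictScalars K).comp
      ((eK K).symm : AlgebraicClosure K →ₐ[K] Sep K) = ψ'.comp ι₁ := by
    apply AlgHom.ext
    intro x
    change ψ (ι₁ (eK K ((eK K).symm x))) = ψ (ι₁ x)
    rw [AlgEquiv.apply_symm_apply]
  rw [e1, h3]
  congr 1
  unfold Pool.Agent.TH954.act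
  rw [pm_pm]
  congr 2
  apply AlgHom.ext
  intro x
  exact hσ₁ x

theorem tr_back {ξ : (AlgebraicClosure K ≃ₐ[K] AlgebraicClosure K) → AlgPt E K}
    {Q : Pt E (Sep K)} (h : ∀ σ, tr E ξ σ = pm E (rs K σ) Q - Q) :
    ∃ R : AlgPt E K, ∀ σ, ξ σ = Pool.Agent.TH954.act E σ R - R := by
  refine ⟨pm E (eK K : Sep K →ₐ[K] AlgebraicClosure K) Q, fun σ => ?_⟩
  have h1 := congrArg (pm E (eK K : Sep K →ₐ[K] AlgebraicClosure K))
    (h ((eK K).autCongr.symm σ))
  unfold tr at h1
  rw [pm_pm, map_sub, pm_pm] at h1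
  have e1 : (eK K : Sep K →ₐ[K] AlgebraicClosure K).comp
      ((eK K).symm : AlgebraicClosure K →ₐ[K] Sep K) = AlgHom.id K _ := by
    apply AlgHom.ext
    intro x
    exact (eK K).apply_symm_apply x
  have e2 : ∀ T : AlgPt E K, pm E (AlgHom.id K (AlgebraicClosure K)) T = T := by
    intro T
    cases T <;> rfl
  rw [e1, e2, MulEquiv.apply_symm_apply] at h1
  rw [h1]
  congr 1
  unfold Pool.Agent.TH954.act
  rw [pm_pm]
  congr 2
  apply AlgHom.ext
  intro x
  change eK K ((eK K).symm (σ (eK K x))) = σ (eK K x)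
  rw [AlgEquiv.apply_symm_apply]

end Pool.Agent.Helper82.SX
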