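import Pool.Agent.Helper82.SX.Fam2

/-!
# Project SX (helper82): counting

After `Helper82/TU/Cnt.lean`.
-/

set_option autoImplicit false
set_option linter.all false

open Polynomial IsDedekindDomain NumberField
open Pool.Agent.N352.PJ (dd)
open Pool.Agent.N783.PF (Ov IsGen fF GoodS GoodF SqF Cg rd sp Dp Fam LBad Min S_GEN Ht S_PTS S_BAD
  S_EXS)
open Pool.Agent.N99.PF (card_fib ht_card ht_scale scale_inj)
open Pool.Agent.N874.QM (Gen SplitMod)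
open Pool.Agent.N874.TF (Parts fM Unr Spl irr_mod irr_mod' Tws exists_nat nat_mem_prod)
open Pool.Agent.Helper82.TU
open scoped Classical IntermediateField

namespace Pool.Agent.Helper82.SX

/-- A product of primes which are congruent to one modulo 8. -/
theorem dp_one {J : Finset ℕ} (h : ∀ q ∈ J, q % 8 = 1) : (8 : ℤ) ∣ ((Dp J : ℕ) : ℤ) - 1 := by
  have h1 : Dp J % 8 = 1 := by
    unfold Dp
    induction J using Finset.induction_on with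
    | empty => rfl
    | insert a s ha ih =>
      rw [Finset.prod_insert ha, Nat.mul_mod, h a (Finset.mem_insert_self a s),
        ih (fun q hq => h q (Finset.mem_insert_of_mem hq))]
  omega

theorem reg_scale {F : Type} [Field F] [NumberField F] {g : ℕ} (hg1 : g = 1) {f f₁ : (𝓞 F)[X]}
    {W D : ℕ} (h1 : f.Monic) (h2 : f.natDegree = 2 * g + 1) (h3 : f.coeff (2 * g) = 0)
    (k1 : f₁.Monic) (k2 : f₁.natDegree = 2 * g + 1) (k3 : f₁.coeff (2 * g) = 0)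
    (hc : Cg (sp F W) f f₁) {v : HeightOneSpectrum (𝓞 F)} (hv : (2 : 𝓞 F) ∈ v.asIdeal)
    (hW : (W : 𝓞 F) ∈ v.asIdeal ^ 2) (hr : RegP v f₁) (hD : (8 : ℤ) ∣ (D : ℤ) - 1) :
    RegP v (f.scaleRoots ((D : ℕ) : 𝓞 F)) := by
  subst hg1
  have hf := Pool.Agent.N874.TF.eq_pol' h1 h2 h3
  have hf1 := Pool.Agent.N874.TF.eq_pol' k1 k2 k3
  have hms : (f.scaleRoots ((D : ℕ) : 𝓞 F)).Monic := (monic_scaleRoots_iff _).2 h1
  have hds : (f.scaleRoots ((D : ℕ) : 𝓞 F)).natDegree = 3 := by rw [natDegree_scaleRoots, h2]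
  have hcs : (f.scaleRoots ((D : ℕ) : 𝓞 F)).coeff 2 = 0 := by
    have h3' : f.coeff 2 = 0 := h3
    rw [coeff_scaleRoots, h3', zero_mul]
  have hs := Pool.Agent.N874.TF.eq_pol' hms hds hcs
  rw [hs]
  rw [hf1] at hr
  have h4 : (4 : 𝓞 F) ∈ v.asIdeal ^ 2 := by
    have e : (4 : 𝓞 F) = 2 * 2 := by norm_num
    rw [e, pow_two]
    exact Ideal.mul_mem_mul hv hv
  have hD1 : ((D : ℕ) : 𝓞 F) - 1 ∈ v.asIdeal ^ 2 := by
    obtain ⟨k, hk⟩ := hD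
    have e : ((D : ℕ) : 𝓞 F) - 1 = 4 * (2 * (k : 𝓞 F)) := by
      have h5 : (((D : ℤ) - 1 : ℤ) : 𝓞 F) = ((8 * k : ℤ) : 𝓞 F) := by rw [hk]
      push_cast at h5
      rw [h5]
      ring
    rw [e]
    exact Ideal.mul_mem_right _ _ h4
  have hcc : ∀ j, f.coeff j - f₁.coeff j ∈ v.asIdeal ^ 2 := by
    intro j
    exact (Ideal.span_singleton_le_iff_mem _).2 hW (hc j)
  have key : ∀ j, (f.scaleRoots ((D : ℕ) : 𝓞 F)).coeff j - f₁.coeff j ∈ v.asIdeal ^ 2 := by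
    intro j
    rw [coeff_scaleRoots]
    obtain ⟨c, hc⟩ := sub_one_dvd_pow_sub_one ((D : ℕ) : 𝓞 F) (f.natDegree - j)
    have e : f.coeff j * ((D : ℕ) : 𝓞 F) ^ (f.natDegree - j) - f₁.coeff j =
        f.coeff j * (((D : ℕ) : 𝓞 F) ^ (f.natDegree - j) - 1) + (f.coeff j - f₁.coeff j) := by ring
    rw [e, hc]
    refine Ideal.add_mem _ (Ideal.mul_mem_left _ _ (Ideal.mul_mem_right _ _ hD1)) (hcc j)
  exact hr.congr (key 1) (key 0)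

/-- A positive proportion. -/
theorem main2 (F : Type) [Field F] [NumberField F] {g : ℕ} (hg1 : g = 1)
    (T : Finset (HeightOneSpectrum (𝓞 F))) (N : Type) [Field N] [NumberField N] [Algebra F N] :
    ∃ Q : Finset (HeightOneSpectrum (𝓞 F)), Disjoint Q T ∧ (∀ v ∈ Q, (2 : 𝓞 F) ∉ v.asIdeal) ∧
    (∀ v ∈ Q, Spl v N) ∧
    ∃ c : ℝ, 0 < c ∧ ∃ B₀ : ℕ, ∀ B ≥ B₀,
    {f : (𝓞 F)[X] | Ht g B f}.Finite ∧ c * ({f : (𝓞 F)[X] | Ht g B f}.ncard : ℝ) ≤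
      ({f : (𝓞 F)[X] | Ht g B f ∧ Irreducible (fF f) ∧
        (∀ v : HeightOneSpectrum (𝓞 F), (2 : 𝓞 F) ∈ v.asIdeal → Irreducible (rd v.asIdeal f)) ∧
        (∀ v ∈ T, Irreducible (rd v.asIdeal f)) ∧ MonoF f ∧
        Tws g {𝔭 | ∃ v ∈ Q, 𝔭 = v.asIdeal} f ∧ Unr2 {𝔭 | ∃ v ∈ Q, 𝔭 = v.asIdeal} f f ∧
        Min g f ∧ ∀ v : HeightOneSpectrum (𝓞 F), (2 : 𝓞 F) ∈ v.asIdeal → RegP v f}.ncard : ℝ) := by
  have hg : 1 ≤ g := hg1.ge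
  obtain ⟨κ, htw⟩ := selM Pool.Agent.N874.TF.parts Pool.Agent.N667.PF.gen F hg
  obtain ⟨C, K, hbad⟩ := Pool.Agent.N783.PF.bad F g κ hg
  obtain ⟨γ, μ, δ, hγ, -⟩ := Pool.Agent.N160.QM.gen N
  choose pr hpr1 hpr2 using fun v : HeightOneSpectrum (𝓞 F) => exists_nat v
  obtain ⟨W, f₁, hKW0, hf₁, hWp, hWi, hW2, hreg, c, hc, hfam⟩ :=
    fam2 F g hg1 (max (max K κ) δ) (∑ v ∈ T, pr v)
  have hKW : max K κ ≤ W := (le_max_left _ _).trans hKW0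
  have hδW : δ ≤ W := (le_max_right _ _).trans hKW0
  have hTW : ∀ v ∈ T, pr v ∣ W := fun v hv =>
    hWp (pr v) (hpr1 v) (Finset.single_le_sum (f := pr) (fun _ _ => Nat.zero_le _) hv)
  obtain ⟨-, Cp, hCp, -, hpt⟩ := Pool.Agent.N490.PF.pts F
  set D : ℕ := Module.finrank ℚ F * dd g with hD
  obtain ⟨m, hm⟩ : ∃ m : ℕ, 2 * (C * (4 * 2 ^ κ : ℝ) ^ D) / c < 2 ^ m :=
    pow_unbounded_of_one_lt _ (by norm_num)
  obtain ⟨S, 𝔮, h, P, hS, hcard, hsp⟩ := Pool.Agent.Helper82.PT.exsm F g W μ hg hγ.monic m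
  have hqq : ∀ q ∈ S, (q : 𝓞 F) ∈ 𝔮 q := fun q hq => (hS q hq).2.2.2.2.2.2.1
  have hpr : ∀ q ∈ S, (𝔮 q).IsPrime := fun q hq => (hS q hq).2.2.2.2.2.1
  have hq0 : ∀ q ∈ S, 𝔮 q ≠ ⊥ := by
    intro q hq h0
    have h1 := hqq q hq
    rw [h0, Ideal.mem_bot] at h1
    exact (hS q hq).1.ne_zero (by exact_mod_cast h1)
  -- the primes in `Q`
  obtain ⟨Q₀, hQ₀⟩ : ∃ Q₀ : Finset (HeightOneSpectrum (𝓞 F)), ∀ v : HeightOneSpectrum (𝓞 F),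
      v ∈ Q₀ ↔ ∃ q ∈ S, v.asIdeal = 𝔮 q := by
    let φ : {q // q ∈ S} → HeightOneSpectrum (𝓞 F) := fun q =>
      ⟨𝔮 q.1, hpr q.1 q.2, hq0 q.1 q.2⟩
    refine ⟨S.attach.image φ, fun v => ?_⟩
    rw [Finset.mem_image]
    constructor
    · rintro ⟨q, -, rfl⟩
      exact ⟨q.1, q.2, rfl⟩
    · rintro ⟨q, hq, hv⟩
      exact ⟨⟨q, hq⟩, Finset.mem_attach _ _, HeightOneSpectrum.ext hv.symm⟩
  have hQset : {𝔭 : Ideal (𝓞 F) | ∃ v ∈ Q₀, 𝔭 = v.asIdeal} = {𝔭 | ∃ q ∈ S, 𝔭 = 𝔮 q} := by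
    ext 𝔭
    constructor
    · rintro ⟨v, hv, rfl⟩
      exact (hQ₀ v).1 hv
    · rintro ⟨q, hq, rfl⟩
      exact ⟨⟨𝔮 q, hpr q hq, hq0 q hq⟩, (hQ₀ _).2 ⟨q, hq, rfl⟩, rfl⟩
  have hne : ∀ q ∈ S, ∀ p : ℕ, p.Prime → p ∣ W → ∀ v : HeightOneSpectrum (𝓞 F),
      (q : 𝓞 F) ∈ v.asIdeal → (p : 𝓞 F) ∈ v.asIdeal → False := by
    intro q hq p hp hpW v h4 h5
    have h6 := Pool.Agent.N874.QM.below_unique (hS q hq).1 hp h4 h5
    have h7 := Nat.le_of_dvd hf₁.pos hpW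
    have h8 := (hS q hq).2.1
    omega
  refine ⟨Q₀, ?_, ?_, ?_, ?_⟩
  · rw [Finset.disjoint_left]
    intro v hv hvT
    obtain ⟨q, hq, hvq⟩ := (hQ₀ v).1 hv
    exact hne q hq (pr v) (hpr1 v) (hTW v hvT) v (by rw [hvq]; exact hqq q hq) (hpr2 v)
  · intro v hv h2v
    obtain ⟨q, hq, hvq⟩ := (hQ₀ v).1 hv
    exact hne q hq 2 Nat.prime_two hf₁.two v (by rw [hvq]; exact hqq q hq)
      (by rw [Nat.cast_ofNat]; exact h2v)
  · intro v hv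
    obtain ⟨q, hq, hvq⟩ := (hQ₀ v).1 hv
    refine spl_of hγ (hS q hq).1 (hsp q hq) (fun hd => ?_) v (by rw [hvq]; exact hqq q hq)
    have h7 := Nat.le_of_dvd (Nat.pos_of_ne_zero hγ.ne) hd
    have h8 := (hS q hq).2.1
    omega
  rw [hQset]
  obtain ⟨B₁₀, hB₁₀⟩ := hfam S 𝔮 h P hS
  obtain ⟨N₀, hN₀⟩ := hbad W S 𝔮 h P ((le_max_left _ _).trans hKW) hS
  set Q : ℕ := ∏ q ∈ S, q with hQ
  have hq1 : ∀ q ∈ S, 1 ≤ q := fun q hq => (hS q hq).1.pos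
  have hQ1 : 1 ≤ Q := Finset.one_le_prod' hq1
  set Pn : ℕ := (∏ q ∈ S, q ^ (2 * g)) ^ Module.finrank ℚ F with hPn
  have hP0 : (0 : ℝ) < Pn := by
    have : 0 < Pn := pow_pos (Finset.prod_pos fun q hq => pow_pos (hq1 q hq) _) _
    exact_mod_cast this
  have hQ0 : (0 : ℝ) < Q := by exact_mod_cast hQ1
  set X₀ : ℕ := max (max B₁₀ (4 ^ N₀)) 1 with hX₀
  refine ⟨c / 2 / (Pn * 2 ^ m * ((2 * Cp) ^ (2 * g) * (2 * Q) ^ D)), by positivity, X₀ * Q,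
    fun B hB => ?_⟩
  set B₁ : ℕ := B / Q with hB₁
  have hBX : X₀ ≤ B₁ := (Nat.le_div_iff_mul_le hQ1).2 hB
  have hb1 : 1 ≤ B₁ := (le_max_right _ _).trans hBX
  have hb2 : B₁₀ ≤ B₁ := ((le_max_left _ _).trans (le_max_left _ _)).trans hBX
  have hb3 : 4 ^ N₀ ≤ B₁ := ((le_max_right _ _).trans (le_max_left _ _)).trans hBX
  have hBQ : B₁ * Q ≤ B := Nat.div_mul_le_self B Q
  have hBQ2 : B ≤ 2 * Q * B₁ := by
    have e1 : B < B₁ * Q + Q := by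
      have := Nat.lt_div_mul_add (a := B) (b := Q) hQ1
      exact this
    nlinarith
  have hB1 : 1 ≤ B := le_trans (by nlinarith) hBQ
  obtain ⟨N₁, hNa, hNb⟩ : ∃ N₁ : ℕ, 2 ^ κ * B₁ ≤ 4 ^ N₁ ∧ 4 ^ N₁ ≤ 4 * (2 ^ κ * B₁) := by
    refine ⟨Nat.log 4 (2 ^ κ * B₁) + 1, (Nat.lt_pow_succ_log_self (by norm_num) _).le, ?_⟩
    rw [pow_succ, mul_comm]
    refine Nat.mul_le_mul_left 4 (Nat.pow_log_le_self 4 ?_)
    positivity
  have hNN : N₀ ≤ N₁ := by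
    have e1 : 4 ^ N₀ ≤ 4 ^ N₁ := hb3.trans (le_trans (Nat.le_mul_of_pos_left _ (by positivity)) hNa)
    exact (Nat.pow_le_pow_iff_right (by norm_num)).1 e1
  obtain ⟨hfin, hBd⟩ := hN₀ N₁ hNN
  refine ⟨(ht_card hCp hpt g B hB1).1, ?_⟩
  set Hs := {f : (𝓞 F)[X] | Ht g B f ∧ Irreducible (fF f) ∧
        (∀ v : HeightOneSpectrum (𝓞 F), (2 : 𝓞 F) ∈ v.asIdeal → Irreducible (rd v.asIdeal f)) ∧
        (∀ v ∈ T, Irreducible (rd v.asIdeal f)) ∧ MonoF f ∧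
        Tws g {𝔭 | ∃ q ∈ S, 𝔭 = 𝔮 q} f ∧ Unr2 {𝔭 | ∃ q ∈ S, 𝔭 = 𝔮 q} f f ∧
        Min g f ∧ ∀ v : HeightOneSpectrum (𝓞 F), (2 : 𝓞 F) ∈ v.asIdeal → RegP v f} with hH
  set G := {f : (𝓞 F)[X] | Fam g B₁ W f₁ S P f ∧ MonoF f} \ {f : (𝓞 F)[X] | LBad g N₁ κ S 𝔮 P f} with hGdef
  have hHf : Hs.Finite := (ht_card hCp hpt g B hB1).1.subset fun f hf => hf.1
  have hGf : G.Finite := (ht_card hCp hpt g B₁ hb1).1.subset fun f hf => hf.1.1.ht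
  have hG : c / 2 * (B₁ : ℝ) ^ D ≤ Pn * (G.ncard : ℝ) := by
    refine good_card' (C := C) (m := m) (κ := κ) hc hP0 B₁ N₁ (hB₁₀ B₁ hb2) hfin ?_ hm ?_
    · rw [hcard] at hBd
      have e2 : Module.finrank ℚ F * (2 * N₁ * dd g) = 2 * N₁ * D := by rw [hD]; ring
      rw [e2] at hBd
      exact_mod_cast hBd
    · exact_mod_cast hNb
  have hJ0 : ∀ J ⊆ S, ((Dp J : ℕ) : 𝓞 F) ≠ 0 := by
    intro J hJ
    have : 0 < ∏ q ∈ J, q := Finset.prod_pos fun q hq => hq1 q (hJ hq)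
    have h5 : (Dp J : ℕ) ≠ 0 := this.ne'
    exact_mod_cast h5
  have hirrW : ∀ f : (𝓞 F)[X], Fam g B₁ W f₁ S P f → ∀ J ⊆ S,
      ∀ (v : HeightOneSpectrum (𝓞 F)) (p : ℕ), p.Prime → p ∣ W → (p : 𝓞 F) ∈ v.asIdeal →
      Irreducible (rd v.asIdeal (f.scaleRoots ((Dp J : ℕ) : 𝓞 F))) := by
    intro f hf J hJ v p hp hpW hpv
    refine irr_mod' hf.ht.mon v (fun hD' => ?_) ?_
    · obtain ⟨q, hq, hqv⟩ := nat_mem_prod hD'
      exact hne q (hJ hq) p hp hpW v hqv hpv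
    · have hWv : (W : 𝓞 F) ∈ v.asIdeal := by
        obtain ⟨b, hb⟩ := hpW
        rw [hb, Nat.cast_mul]
        exact Ideal.mul_mem_right _ _ hpv
      rw [Pool.Agent.N78.PF.rd_eq (Pool.Agent.N78.PF.sp_le hWv) hf.one]
      exact hWi v.asIdeal v.isPrime hWv
  have hregS : ∀ f : (𝓞 F)[X], Fam g B₁ W f₁ S P f → ∀ J ⊆ S,
      ∀ v : HeightOneSpectrum (𝓞 F), (2 : 𝓞 F) ∈ v.asIdeal →
      RegP v (f.scaleRoots ((Dp J : ℕ) : 𝓞 F)) := by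
    intro f hf J hJ v hv
    exact reg_scale hg1 hf.ht.mon hf.ht.deg hf.ht.tr hf₁.mon hf₁.deg hf₁.tr hf.one hv (hW2 v hv)
      (hreg v hv) (dp_one (fun q hq => (hS q (hJ hq)).2.2.2.1))
  have hcard1 := card_fib hGf hHf S (fun J f => f.scaleRoots ((Dp J : ℕ) : 𝓞 F)) (by
      intro f hf
      obtain ⟨hsqf, J, hJ, hirr, hsel, hmin⟩ := htw B₁ N₁ W f₁ S 𝔮 h P f
        ((le_max_right _ _).trans hKW) hf₁ hS hf.1.1 hNa hb1 hf.2 hf.1.2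
      have hDle : Dp J ≤ Q :=
        Finset.prod_le_prod_of_subset_of_one_le' hJ fun q hq _ => hq1 q hq
      refine ⟨J, hJ, ht_scale hf.1.1.ht ((Nat.mul_le_mul_left _ hDle).trans hBQ), hirr,
        fun v hv => hirrW f hf.1.1 J hJ v 2 Nat.prime_two hf₁.two (by rw [Nat.cast_ofNat]; exact hv),
        fun v hv => hirrW f hf.1.1 J hJ v (pr v) (hpr1 v) (hTW v hv) (hpr2 v),
        mono_scale hf.1.1.ht.mon hf.1.2
          (Nat.pos_of_ne_zero fun h0 => hJ0 J hJ (by rw [h0, Nat.cast_zero])),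
        ⟨Dp J, f, hsqf, rfl, ?_, ?_, ?_⟩, uni_self hf.1.1.ht.mon hsel, hmin,
        hregS f hf.1.1 J hJ⟩
      · refine Finset.squarefree_prod_of_pairwise_isCoprime ?_ fun q hq =>
          (hS q (hJ hq)).1.prime.squarefree
        intro a ha b hb hab
        exact Nat.coprime_iff_isRelPrime.1
          ((Nat.coprime_primes (hS a (hJ ha)).1 (hS b (hJ hb)).1).2 hab)
      · intro q hq hqD
        obtain ⟨p, hp, hqp⟩ := (hq.prime.dvd_finset_prod_iff _).1 hqD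
        have h5 := (Nat.prime_dvd_prime_iff_eq hq (hS p (hJ hp)).1).1 hqp
        rw [h5]
        exact (hS p (hJ hp)).2.2.2.1
      · intro v hv
        obtain ⟨q, hq, hqv⟩ := nat_mem_prod hv
        by_cases hvq : v.asIdeal = 𝔮 q
        · exact Or.inl ⟨q, hJ hq, hvq⟩
        · right
          rw [Pool.Agent.N78.PF.rd_eq (Pool.Agent.N78.PF.sp_le hqv) (hf.1.1.con q (hJ hq))]
          exact (hS q (hJ hq)).2.2.2.2.2.2.2.2.2.2.2.2.2.2 v.asIdeal v.isPrime hqv hvq) (by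
      intro J hJ x hx y hy hxy
      exact scale_inj (hJ0 J hJ) (by rw [hx.1.1.ht.deg, hy.1.1.ht.deg]) hxy)
  rw [hcard] at hcard1
  have hcard' : (G.ncard : ℝ) ≤ 2 ^ m * Hs.ncard := by exact_mod_cast hcard1
  have hM' : ({f : (𝓞 F)[X] | Ht g B f}.ncard : ℝ) ≤
      (2 * Cp) ^ (2 * g) * (2 * Q) ^ D * (B₁ : ℝ) ^ D := by
    have e1 : ({f : (𝓞 F)[X] | Ht g B f}.ncard : ℝ) ≤ (2 * Cp) ^ (2 * g) * (B : ℝ) ^ D :=
      (ht_card hCp hpt g B hB1).2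
    refine e1.trans ?_
    rw [mul_assoc, ← mul_pow]
    have e2 : (B : ℝ) ≤ 2 * Q * B₁ := by exact_mod_cast hBQ2
    gcongr
  calc c / 2 / (Pn * 2 ^ m * ((2 * Cp) ^ (2 * g) * (2 * Q) ^ D)) *
        ({f : (𝓞 F)[X] | Ht g B f}.ncard : ℝ)
      ≤ c / 2 / (Pn * 2 ^ m * ((2 * Cp) ^ (2 * g) * (2 * Q) ^ D)) *
        ((2 * Cp) ^ (2 * g) * (2 * Q) ^ D * (B₁ : ℝ) ^ D) :=
        mul_le_mul_of_nonneg_left hM' (by positivity)
    _ = c / 2 * (B₁ : ℝ) ^ D / (Pn * 2 ^ m) := by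
        field_simp
    _ ≤ (Pn * (G.ncard : ℝ)) / (Pn * 2 ^ m) := by gcongr
    _ ≤ (Pn * (2 ^ m * Hs.ncard)) / (Pn * 2 ^ m) := by gcongr
    _ = Hs.ncard := by field_simp

end Pool.Agent.Helper82.SX
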