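import Pool.Graph.R_seed8.TH942.Par

/-!
# Project SX (helper82): points which are divisible by all powers of two

`L` is a field with a discrete valuation of residue characteristic two, `f = x ^ 3 + a x + b` has integral
coefficients and no zero modulo the maximal ideal, and the curve `y ^ 2 = f(x)` has no integral point at
which the derivative of `f` is not a unit. Then the point at infinity is the only point of the curve over
`L` which is divisible by all powers of two.
-/

set_option autoImplicit false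
set_option linter.all false

open WeierstrassCurve
open scoped Classical

namespace Pool.Agent.Helper82.SX

open Pool.Agent.TH942 (sw sw_eqn sxRep_double)

variable {L : Type} [Field L] [CharZero L] {v : Valuation L (WithZero (Multiplicative ℤ))} {a b : L}

/-- the hypotheses -/
structure Hyp (v : Valuation L (WithZero (Multiplicative ℤ))) (a b : L) : Prop where
  two : v 2 < 1
  ha : v a ≤ 1
  hb : v b ≤ 1
  irr : ∀ x, v x ≤ 1 → v (x ^ 3 + a * x + b) = 1
  reg : ∀ x y, v x ≤ 1 → v y ≤ 1 → y ^ 2 = x ^ 3 + a * x + b → v (3 * x ^ 2 + a) = 1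

theorem Hyp.four (h : Hyp v a b) : v 4 < 1 := by
  have e : (4 : L) = 2 ^ 2 := by norm_num
  rw [e, map_pow]
  exact pow_lt_one₀ zero_le h.two (by norm_num)

theorem Hyp.big (h : Hyp v a b) {x : L} (hx : 1 < v x) : v (x ^ 3 + a * x + b) = v x ^ 3 := by
  have h0 : v x ≠ 0 := (lt_trans zero_lt_one hx).ne'
  have h1 : v x < v x ^ 3 := by
    have : v x ^ 1 < v x ^ 3 := pow_lt_pow_right₀ hx (by norm_num)
    rwa [pow_one] at this
  have h2 : v (a * x) < v (x ^ 3) := by
    rw [map_mul, map_pow]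
    calc v a * v x ≤ 1 * v x := mul_le_mul_left h.ha _
      _ = v x := one_mul _
      _ < _ := h1
  have h3 : v (x ^ 3 + a * x) = v (x ^ 3) := Valuation.map_add_eq_of_lt_left v h2
  have h4 : v b < v (x ^ 3 + a * x) := by
    rw [h3, map_pow]
    exact lt_of_le_of_lt h.hb (lt_trans hx h1)
  rw [Valuation.map_add_eq_of_lt_left v h4, h3, map_pow]

theorem Hyp.ne (h : Hyp v a b) (x : L) : x ^ 3 + a * x + b ≠ 0 := by
  intro h0
  rcases le_or_gt (v x) 1 with hx | hx
  · have := h.irr x hx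
    rw [h0, map_zero] at this
    exact zero_ne_one this
  · have := h.big hx
    rw [h0, map_zero] at this
    exact (pow_pos (lt_trans zero_lt_one hx) 3).ne this

/-- duplication -/
theorem Hyp.dbl (h : Hyp v a b) {x y : L} (hxy : y ^ 2 = x ^ 3 + a * x + b) :
    1 ≤ v 4 * v ((x ^ 4 - 2 * a * x ^ 2 - 8 * b * x + a ^ 2) / (4 * y ^ 2)) ∧
      v x ≤ v 4 * v ((x ^ 4 - 2 * a * x ^ 2 - 8 * b * x + a ^ 2) / (4 * y ^ 2)) := by
  have h4 : v 4 ≠ 0 := (Valuation.ne_zero_iff v).2 (by norm_num)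
  have hy0 : y ≠ 0 := by
    rintro rfl
    apply h.ne x
    rw [← hxy]
    ring
  have e0 : v 4 * v ((x ^ 4 - 2 * a * x ^ 2 - 8 * b * x + a ^ 2) / (4 * y ^ 2)) =
      v (x ^ 4 - 2 * a * x ^ 2 - 8 * b * x + a ^ 2) / v (y ^ 2) := by
    rw [← map_mul, ← map_div₀]
    congr 1
    field_simp
  rw [e0]
  have h8 : v (8 : L) < 1 := by
    have e : (8 : L) = 2 * 4 := by norm_num
    rw [e, map_mul]
    calc v 2 * v 4 ≤ 1 * v 4 := mul_le_mul_left h.two.le _
      _ = v 4 := one_mul _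
      _ < 1 := h.four
  rcases le_or_gt (v x) 1 with hx | hx
  · have hfx := h.irr x hx
    have hy : v (y ^ 2) = 1 := by rw [hxy, hfx]
    have hy1 : v y ≤ 1 := by
      by_contra hc
      push Not at hc
      rw [map_pow] at hy
      exact absurd hy (one_lt_pow₀ hc (by norm_num)).ne'
    have hr := h.reg x y hx hy1 hxy
    have e1 : x ^ 4 - 2 * a * x ^ 2 - 8 * b * x + a ^ 2 =
        (3 * x ^ 2 + a) ^ 2 + -(8 * (x * (x ^ 3 + a * x + b))) := by ring
    have h5 : v (-(8 * (x * (x ^ 3 + a * x + b)))) < v ((3 * x ^ 2 + a) ^ 2) := by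
      rw [Valuation.map_neg, map_mul, map_mul, hfx, mul_one, map_pow, hr, one_pow]
      calc v 8 * v x ≤ v 8 * 1 := mul_le_mul_right hx _
        _ = v 8 := mul_one _
        _ < 1 := h8
    rw [e1, Valuation.map_add_eq_of_lt_left v h5, map_pow, hr, one_pow, hy, div_one]
    exact ⟨le_rfl, hx⟩
  · have hfx := h.big hx
    have h0 : v x ≠ 0 := (lt_trans zero_lt_one hx).ne'
    have hy : v (y ^ 2) = v x ^ 3 := by rw [hxy, hfx]
    have h24 : v x ^ 2 < v x ^ 4 := pow_lt_pow_right₀ hx (by norm_num)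
    have h12 : v x < v x ^ 4 := by
      have : v x ^ 1 < v x ^ 4 := pow_lt_pow_right₀ hx (by norm_num)
      rwa [pow_one] at this
    have t1 : v (2 * a * x ^ 2) < v (x ^ 4) := by
      rw [map_mul, map_mul, map_pow, map_pow]
      calc v 2 * v a * v x ^ 2 ≤ 1 * 1 * v x ^ 2 :=
            mul_le_mul_left (mul_le_mul' h.two.le h.ha) _
        _ = v x ^ 2 := by rw [one_mul, one_mul]
        _ < _ := h24
    have t2 : v (8 * b * x) < v (x ^ 4) := by
      rw [map_mul, map_mul, map_pow]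
      calc v 8 * v b * v x ≤ 1 * 1 * v x := mul_le_mul_left (mul_le_mul' h8.le h.hb) _
        _ = v x := by rw [one_mul, one_mul]
        _ < _ := h12
    have t3 : v (a ^ 2) < v (x ^ 4) := by
      rw [map_pow, map_pow]
      exact lt_of_le_of_lt (pow_le_one₀ zero_le h.ha) (lt_trans hx h12)
    have s1 : v (x ^ 4 - 2 * a * x ^ 2) = v (x ^ 4) := Valuation.map_sub_eq_of_lt_left v t1
    have s2 : v (x ^ 4 - 2 * a * x ^ 2 - 8 * b * x) = v (x ^ 4) := by
      rw [Valuation.map_sub_eq_of_lt_left v (by rw [s1]; exact t2), s1]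
    have s3 : v (x ^ 4 - 2 * a * x ^ 2 - 8 * b * x + a ^ 2) = v x ^ 4 := by
      rw [Valuation.map_add_eq_of_lt_left v (by rw [s2]; exact t3), s2, map_pow]
    have e2 : v x ^ 4 / v x ^ 3 = v x := by
      rw [div_eq_iff (pow_ne_zero 3 h0), ← pow_succ']
    rw [s3, hy, e2]
    exact ⟨hx.le, le_rfl⟩

/-- the doubles of a point -/
theorem Hyp.double (h : Hyp v a b) {Q : (sw a b).toAffine.Point} (hQ : Q ≠ 0) :
    ∃ x y hxy, 2 • Q = .some x y hxy ∧ 1 ≤ v 4 * v x ∧
      ∀ x₀ y₀ h₀, Q = .some x₀ y₀ h₀ → v x₀ ≤ v 4 * v x := by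
  rcases Q with _ | ⟨x, y, hn⟩
  · exact absurd rfl hQ
  · have he := sw_eqn.1 hn.1
    have hy0 : y ≠ 0 := by
      rintro rfl
      apply h.ne x
      rw [← he]
      ring
    have h1 := sxRep_double hn hy0
    obtain ⟨h2, h3⟩ := h.dbl he
    rw [← two_nsmul] at h1
    rcases h4 : 2 • Affine.Point.some x y hn with _ | ⟨x', y', hn'⟩
    · rw [h4] at h1
      have h5 := congrFun h1 1
      exfalso
      have h6 : (Affine.Point.zero : (sw a b).toAffine.Point).xRep = ![1, 0] :=
        Affine.Point.xRep_zero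
      rw [h6] at h5
      simp at h5
    · rw [h4, Affine.Point.xRep_some] at h1
      have h5 := congrFun h1 0
      simp only [Matrix.cons_val_zero] at h5
      refine ⟨x', y', hn', rfl, ?_, ?_⟩
      · rw [h5]
        exact h2
      · intro x₀ y₀ h₀ e
        rw [Affine.Point.some.injEq] at e
        rw [← e.1, h5]
        exact h3

theorem Hyp.power (h : Hyp v a b) (n : ℕ) {Q : (sw a b).toAffine.Point} (hQ : Q ≠ 0) :
    ∃ x y hxy, 2 ^ (n + 1) • Q = .some x y hxy ∧ 1 ≤ v 4 ^ (n + 1) * v x := by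
  induction n with
  | zero =>
    obtain ⟨x, y, hxy, h1, h2, -⟩ := h.double hQ
    refine ⟨x, y, hxy, ?_, ?_⟩
    · rw [← h1]
      norm_num
    · simpa using h2
  | succ n ih =>
    obtain ⟨x, y, hxy, h1, h2⟩ := ih
    obtain ⟨x', y', hxy', h3, -, h5⟩ := h.double (Q := .some x y hxy) (by
      exact Affine.Point.some_ne_zero _)
    refine ⟨x', y', hxy', ?_, ?_⟩
    · rw [pow_succ, mul_comm, mul_smul, h1, h3]
    · have h6 := h5 x y hxy rfl
      calc (1 : WithZero (Multiplicative ℤ)) ≤ v 4 ^ (n + 1) * v x := h2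
        _ ≤ v 4 ^ (n + 1) * (v 4 * v x') := mul_le_mul_right h6 _
        _ = _ := by rw [pow_succ (v 4) (n + 1), mul_assoc]

/-- small powers -/
theorem exists_pow_small {t s : WithZero (Multiplicative ℤ)} (ht : t < 1) :
    ∃ n : ℕ, t ^ (n + 1) * s < 1 := by
  rcases eq_or_ne s 0 with rfl | hs
  · exact ⟨0, by rw [mul_zero]; exact zero_lt_one⟩
  rcases eq_or_ne t 0 with rfl | ht0
  · exact ⟨0, by rw [zero_pow (by norm_num), zero_mul]; exact zero_lt_one⟩
  obtain ⟨i, hi⟩ : ∃ i : ℤ, t = WithZero.exp i := ⟨WithZero.log t, (WithZero.exp_log ht0).symm⟩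
  obtain ⟨j, hj⟩ : ∃ j : ℤ, s = WithZero.exp j := ⟨WithZero.log s, (WithZero.exp_log hs).symm⟩
  have hi0 : i < 0 := by
    rw [hi, ← WithZero.exp_zero, WithZero.exp_lt_exp] at ht
    exact ht
  refine ⟨j.toNat, ?_⟩
  rw [hi, hj, ← WithZero.exp_nsmul, ← WithZero.exp_add, ← WithZero.exp_zero, WithZero.exp_lt_exp]
  have h1 : j ≤ (j.toNat : ℤ) := Int.self_le_toNat j
  rw [nsmul_eq_mul]
  push_cast
  nlinarith

/-- **Only the zero point is divisible by all powers of two.** -/
theorem Hyp.zero (h : Hyp v a b) {W : WeierstrassCurve L} (hW : W = sw a b)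
    (P : W.toAffine.Point) (hP : ∀ n : ℕ, ∃ Q : W.toAffine.Point, 2 ^ n • Q = P) : P = 0 := by
  subst hW
  by_contra hP0
  rcases hP' : P with _ | ⟨x, y, hxy⟩
  · exact hP0 hP'
  obtain ⟨n, hn⟩ := exists_pow_small (t := v 4) (s := v x) h.four
  obtain ⟨Q, hQ⟩ := hP (n + 1)
  have hQ0 : Q ≠ 0 := by
    rintro rfl
    exact hP0 (by rw [← hQ, smul_zero])
  obtain ⟨x', y', hxy', h1, h2⟩ := h.power n hQ0
  rw [hQ, hP', Affine.Point.some.injEq] at h1
  rw [← h1.1] at h2
  exact absurd h2 (not_le.2 hn)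

end Pool.Agent.Helper82.SX
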