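import Pool.Agent.Helper82.NG.Up
import Pool.Agent.Helper82.RC.App
import Pool.Agent.Helper82.SX.Loc

/-!
# Project SX (helper82): the completions at the primes over a prime which splits completely

The hypotheses of the local part for a cubic polynomial over the completions of `M`, from conditions modulo
`v` and modulo `v ^ 2` over `F`.
-/

set_option autoImplicit false
set_option linter.all false

open IsDedekindDomain WithZero NumberField
open scoped Classical

namespace Pool.Agent.Helper82.SX

open Pool.Agent.Helper82.PT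
open Pool.Agent.Helper82.PT.Rn
open Pool.Agent.Helper82.NG (exists_emb)

variable {F M : Type} [Field F] [NumberField F] [Field M] [NumberField M] [Algebra F M]

/-- The cubic `f = x ^ 3 + a x + b` has no zero modulo `v`, and `y ^ 2 - f(x)` is not divisible by the square
of `v` if `f'(x)` is divisible by `v`. -/
structure Reg2 (v : HeightOneSpectrum (𝓞 F)) (a b : 𝓞 F) : Prop where
  irr : ∀ x : 𝓞 F, x ^ 3 + a * x + b ∉ v.asIdeal
  reg : ∀ x y : 𝓞 F, 3 * x ^ 2 + a ∈ v.asIdeal → y ^ 2 - (x ^ 3 + a * x + b) ∉ v.asIdeal ^ 2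

/-- The map from the integers of `F` to the completion. -/
noncomputable def im (w : HeightOneSpectrum (𝓞 M)) : 𝓞 F →+* w.adicCompletion M :=
  ((algebraMap M (w.adicCompletion M)).comp (algebraMap F M)).comp (algebraMap (𝓞 F) F)

theorem val_im (w : HeightOneSpectrum (𝓞 M)) : ∃ e : ℕ, e ≠ 0 ∧
    (∀ x : F, Valued.v (algebraMap M (w.adicCompletion M) (algebraMap F M x)) =
      (blw F w).valuation F x ^ e) := by
  obtain ⟨e, he, h⟩ := Pool.Agent.Helper82.OD.val_pow (K := F) w
  refine ⟨e, he, fun x => ?_⟩
  rw [Pool.Agent.Helper82.RC.val_alg, h]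

theorem pow_le_iff' {t s : WithZero (Multiplicative ℤ)} {e : ℕ} (he : e ≠ 0) :
    t ^ e ≤ s ^ e ↔ t ≤ s := pow_le_pow_iff_left₀ zero_le zero_le he

/-- approximation by integers of `F` -/
theorem den {w : HeightOneSpectrum (𝓞 M)} (j : M →ₐ[F] (blw F w).adicCompletion F)
    (hj : Embf.pl j = w) (x : w.adicCompletion M) (hx : Valued.v x ≤ 1) (k : ℕ) :
    ∃ r : 𝓞 F, Valued.v (x - im w r) ≤ exp (-(k : ℤ)) := by
  obtain ⟨e, he, hval⟩ := val_im (F := F) w
  obtain ⟨π, hπ⟩ := (blw F w).valuation_exists_uniformizer F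
  have hπ0 : π ≠ 0 := by
    rintro rfl
    rw [map_zero] at hπ
    exact exp_ne_zero hπ.symm
  have hc0 : algebraMap F M (π ^ k) ≠ 0 := by
    rw [Ne, map_eq_zero]
    exact pow_ne_zero k hπ0
  have hck : Valued.v (algebraMap M (w.adicCompletion M) (algebraMap F M (π ^ k))) ≤
      exp (-(k : ℤ)) := by
    rw [hval, map_pow, hπ, ← exp_nsmul, ← exp_nsmul, exp_le_exp]
    simp only [nsmul_eq_mul]
    have : 1 ≤ e := Nat.one_le_iff_ne_zero.2 he
    have h2 : (1 : ℤ) ≤ e := by exact_mod_cast this
    nlinarith [Int.natCast_nonneg k]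
  have hk1 : (exp (-(k : ℤ)) : WithZero (Multiplicative ℤ)) ≤ 1 := by
    rw [← exp_zero, exp_le_exp]
    omega
  obtain ⟨z, hz⟩ := Pool.Agent.Helper82.RC.dense_le w x k
  obtain ⟨c, hc⟩ := dense_lt (blw F w) (j (z / algebraMap F M (π ^ k)))
  have h1 : w.valuation M (z / algebraMap F M (π ^ k) - algebraMap F M c) < 1 := by
    have hlt : ∀ y : M, w.valuation M y < 1 ↔ Embf.vs j y < 1 := by
      intro y
      have h := Embf.lt_iff j y
      rwa [hj] at h
    rw [hlt, Embf.vs, map_sub, j.commutes]
    exact hc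
  have h2 : Valued.v (algebraMap M (w.adicCompletion M) z -
      algebraMap M (w.adicCompletion M) (algebraMap F M (c * π ^ k))) ≤ exp (-(k : ℤ)) := by
    rw [← map_sub, Pool.Agent.Helper82.RC.val_alg]
    have e2 : z - algebraMap F M (c * π ^ k) =
        (z / algebraMap F M (π ^ k) - algebraMap F M c) * algebraMap F M (π ^ k) := by
      rw [map_mul]
      field_simp
    rw [e2, map_mul]
    have h3 : w.valuation M (algebraMap F M (π ^ k)) ≤ exp (-(k : ℤ)) := by
      rw [← Pool.Agent.Helper82.RC.val_alg]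
      exact hck
    calc _ ≤ 1 * exp (-(k : ℤ)) := mul_le_mul' h1.le h3
      _ = _ := one_mul _
  have h3 : Valued.v (x - algebraMap M (w.adicCompletion M) (algebraMap F M (c * π ^ k))) ≤
      exp (-(k : ℤ)) := by
    have e1 : x - algebraMap M (w.adicCompletion M) (algebraMap F M (c * π ^ k)) =
        (x - algebraMap M (w.adicCompletion M) z) + (algebraMap M (w.adicCompletion M) z -
          algebraMap M (w.adicCompletion M) (algebraMap F M (c * π ^ k))) := by ring
    rw [e1]
    exact (Valuation.map_add _ _ _).trans (max_le hz h2)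
  have h4 : (blw F w).valuation F (c * π ^ k) ≤ 1 := by
    rw [← pow_le_iff' he, one_pow, ← hval]
    have e1 : algebraMap M (w.adicCompletion M) (algebraMap F M (c * π ^ k)) =
        x - (x - algebraMap M (w.adicCompletion M) (algebraMap F M (c * π ^ k))) := by ring
    rw [e1]
    exact (Valuation.map_sub _ _ _).trans (max_le hx (h3.trans hk1))
  obtain ⟨r, hr⟩ := (blw F w).exists_valuation_sub_lt_of_integer (K := F) h4
    (Units.mk0 (exp (-(k : ℤ))) exp_ne_zero)
  refine ⟨r, ?_⟩
  have e1 : x - im w r =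
      (x - algebraMap M (w.adicCompletion M) (algebraMap F M (c * π ^ k))) -
      algebraMap M (w.adicCompletion M) (algebraMap F M (algebraMap (𝓞 F) F r - c * π ^ k)) := by
    rw [map_sub (algebraMap F M), map_sub (algebraMap M (w.adicCompletion M))]
    unfold im
    simp only [RingHom.comp_apply]
    ring
  rw [e1]
  refine (Valuation.map_sub _ _ _).trans (max_le h3 ?_)
  rw [hval]
  have h5 : (blw F w).valuation F (algebraMap (𝓞 F) F r - c * π ^ k) ≤ exp (-(k : ℤ)) := hr.le
  exact (pow_le_of_le_one zero_le (h5.trans hk1) he).trans h5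

theorem hyp_of [IsGalois F M] {v : HeightOneSpectrum (𝓞 F)} {a b : 𝓞 F} (h : Reg2 v a b)
    (h2 : (2 : 𝓞 F) ∈ v.asIdeal) (σ : M →ₐ[F] v.adicCompletion F) {w : HeightOneSpectrum (𝓞 M)}
    (hw : blw F w = v) :
    Hyp (Valued.v : Valuation (w.adicCompletion M) (WithZero (Multiplicative ℤ)))
      (algebraMap M (w.adicCompletion M) (algebraMap F M (a : F)))
      (algebraMap M (w.adicCompletion M) (algebraMap F M (b : F))) := by
  obtain ⟨j, hj⟩ := exists_emb σ hw
  subst hw
  obtain ⟨e, he, hval⟩ := val_im (F := F) w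
  have hle : ∀ r : 𝓞 F, Valued.v (im w r) ≤ 1 := by
    intro r
    change Valued.v (algebraMap M (w.adicCompletion M) (algebraMap F M (r : F))) ≤ 1
    rw [hval]
    exact pow_le_one₀ zero_le ((blw F w).valuation_le_one r)
  have hlt : ∀ r : 𝓞 F, Valued.v (im w r) < 1 ↔ r ∈ (blw F w).asIdeal := by
    intro r
    change Valued.v (algebraMap M (w.adicCompletion M) (algebraMap F M (r : F))) < 1 ↔ _
    rw [hval, pow_lt_one_iff_of_nonneg zero_le he]
    exact HeightOneSpectrum.valuation_lt_one_iff_mem (K := F) (blw F w) r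
  have hA : algebraMap M (w.adicCompletion M) (algebraMap F M (a : F)) = im w a := rfl
  have hB : algebraMap M (w.adicCompletion M) (algebraMap F M (b : F)) = im w b := rfl
  rw [hA, hB]
  have hsub : ∀ (x : w.adicCompletion M) (r : 𝓞 F), Valued.v x ≤ 1 →
      Valued.v ((x ^ 3 + im w a * x + im w b) - im w (r ^ 3 + a * r + b)) ≤
        Valued.v (x - im w r) := by
    intro x r hx
    have e1 : (x ^ 3 + im w a * x + im w b) - im w (r ^ 3 + a * r + b) =
        (x - im w r) * (x * x + x * im w r + im w r * im w r + im w a) := by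
      simp only [map_add, map_mul, map_pow]
      ring
    rw [e1, map_mul]
    calc _ ≤ Valued.v (x - im w r) * 1 := by
          refine mul_le_mul_right ?_ _
          refine (Valuation.map_add _ _ _).trans (max_le ((Valuation.map_add _ _ _).trans
            (max_le ((Valuation.map_add _ _ _).trans (max_le ?_ ?_)) ?_)) (hle a))
          · rw [map_mul]; exact mul_le_one' hx hx
          · rw [map_mul]; exact mul_le_one' hx (hle r)
          · rw [map_mul]; exact mul_le_one' (hle r) (hle r)
      _ = _ := mul_one _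
  have hk1 : ∀ k : ℕ, 0 < k → (exp (-(k : ℤ)) : WithZero (Multiplicative ℤ)) < 1 := by
    intro k hk
    rw [← exp_zero, exp_lt_exp]
    omega
  refine ⟨?_, hle a, hle b, fun x hx => ?_, fun x y hx hy hxy => ?_⟩
  · have e1 : (2 : w.adicCompletion M) = im (F := F) w 2 := (map_ofNat (im w) 2).symm
    rw [e1, hlt]
    exact h2
  · have h1 : Valued.v (x ^ 3 + im w a * x + im w b) ≤ 1 := by
      refine (Valuation.map_add _ _ _).trans (max_le ((Valuation.map_add _ _ _).trans
        (max_le ?_ ?_)) (hle b))
      · rw [map_pow]; exact pow_le_one₀ zero_le hx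
      · rw [map_mul]; exact mul_le_one' (hle a) hx
    by_contra hne
    have h3 := lt_of_le_of_ne h1 hne
    obtain ⟨r, hr⟩ := den j hj x hx 1
    apply h.irr r
    rw [← hlt]
    have e1 : im w (r ^ 3 + a * r + b) = (x ^ 3 + im w a * x + im w b) -
        ((x ^ 3 + im w a * x + im w b) - im w (r ^ 3 + a * r + b)) := by ring
    rw [e1]
    exact lt_of_le_of_lt (Valuation.map_sub _ _ _)
      (max_lt h3 (lt_of_le_of_lt ((hsub x r hx).trans hr) (hk1 1 one_pos)))
  · have h1 : Valued.v (3 * x ^ 2 + im w a) ≤ 1 := by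
      refine (Valuation.map_add _ _ _).trans (max_le ?_ (hle a))
      have e3 : (3 : w.adicCompletion M) = im (F := F) w 3 := (map_ofNat (im w) 3).symm
      rw [map_mul, map_pow, e3]
      exact mul_le_one' (hle 3) (pow_le_one₀ zero_le hx)
    by_contra hne
    have h3 := lt_of_le_of_ne h1 hne
    obtain ⟨r, hr⟩ := den j hj x hx (2 * e)
    obtain ⟨s, hs⟩ := den j hj y hy (2 * e)
    have h2e : 0 < 2 * e := by omega
    refine h.reg r s ?_ ?_
    · rw [← hlt]
      have e1 : im w (3 * r ^ 2 + a) = (3 * x ^ 2 + im w a) -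
          (x - im w r) * (im (F := F) w 3 * (x + im w r)) := by
        simp only [map_add, map_mul, map_pow, map_ofNat]
        ring
      rw [e1]
      refine lt_of_le_of_lt (Valuation.map_sub _ _ _) (max_lt h3 ?_)
      rw [map_mul]
      calc _ ≤ exp (-((2 * e : ℕ) : ℤ)) * 1 := by
            refine mul_le_mul' hr ?_
            rw [map_mul]
            exact mul_le_one' (hle 3) ((Valuation.map_add _ _ _).trans (max_le hx (hle r)))
        _ < 1 := by rw [mul_one]; exact hk1 _ h2e
    · have h4 : Valued.v (im w (s ^ 2 - (r ^ 3 + a * r + b))) ≤ exp (-((2 * e : ℕ) : ℤ)) := by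
        have e1 : im w (s ^ 2 - (r ^ 3 + a * r + b)) =
            ((x ^ 3 + im w a * x + im w b) - im w (r ^ 3 + a * r + b)) -
            (y - im w s) * (y + im w s) := by
          rw [← hxy]
          simp only [map_add, map_mul, map_pow, map_sub]
          ring
        rw [e1]
        refine (Valuation.map_sub _ _ _).trans (max_le ((hsub x r hx).trans hr) ?_)
        rw [map_mul]
        calc _ ≤ exp (-((2 * e : ℕ) : ℤ)) * 1 :=
              mul_le_mul' hs ((Valuation.map_add _ _ _).trans (max_le hy (hle s)))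
          _ = _ := mul_one _
      have h5 : (blw F w).valuation F ((s ^ 2 - (r ^ 3 + a * r + b) : 𝓞 F) : F) ≤
          exp (-(2 : ℤ)) := by
        rw [← pow_le_iff' he, ← hval]
        refine h4.trans (le_of_eq ?_)
        rw [← exp_nsmul]
        congr 1
        push_cast
        simp
        ring
      have h6 : (blw F w).valuation F (algebraMap (𝓞 F) F (s ^ 2 - (r ^ 3 + a * r + b))) ≤
          exp (-(2 : ℤ)) := h5
      rw [HeightOneSpectrum.valuation_of_algebraMap] at h6
      exact ((blw F w).intValuation_le_pow_iff_mem _ 2).1 h6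

end Pool.Agent.Helper82.SX
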