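import Pool.Agent.Helper82.TU.Cnt
import Pool.Graph.R_pool_sql_team_seeded_63374d34.N874.TF.Ell
import Pool.Agent.Helper82.SX.Tra

/-!
# Project SX (helper82): residues with a regular model at the primes over two
-/

set_option autoImplicit false
set_option linter.all false

open Polynomial NumberField IsDedekindDomain
open scoped Classical

namespace Pool.Agent.Helper82.SX

open Pool.Agent.N352.PF (rv)
open Pool.Agent.N783.PF (rd)
open Pool.Agent.N300.TF (gfi)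
open Pool.Agent.N61.PF (pol pol_coeff0 pol_coeff1 pol_coeff2 pol_natDegree pol_monic)
open Pool.Agent.N874.TF (eq_pol')

variable {F : Type} [Field F] [NumberField F]

/-- If `f'(x)` is divisible by `v`, then `y ^ 2 - f(x)` is not divisible by the square of `v`. -/
def RegP (v : HeightOneSpectrum (𝓞 F)) (f : (𝓞 F)[X]) : Prop :=
  ∀ x y : 𝓞 F, (derivative f).eval x ∈ v.asIdeal → y ^ 2 - f.eval x ∉ v.asIdeal ^ 2

theorem exists_unif (v : HeightOneSpectrum (𝓞 F)) : ∃ a ∈ v.asIdeal, a ∉ v.asIdeal ^ 2 := by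
  by_contra hc
  push Not at hc
  have h1 : v.asIdeal ≤ v.asIdeal ^ 2 := hc
  have h2 : v.asIdeal ^ 2 < v.asIdeal :=
    Ideal.pow_lt_self v.asIdeal v.ne_bot v.isPrime.ne_top 2 le_rfl
  exact absurd h1 (not_le_of_gt h2)

theorem exists_e (T : Finset (HeightOneSpectrum (𝓞 F))) (t : HeightOneSpectrum (𝓞 F) → 𝓞 F) :
    ∃ e : 𝓞 F, ∀ v ∈ T, e ∈ v.asIdeal ∧ t v - e ∉ v.asIdeal ^ 2 := by
  have h1 : ∀ v : HeightOneSpectrum (𝓞 F), ∃ x : 𝓞 F, x ∈ v.asIdeal ∧ t v - x ∉ v.asIdeal ^ 2 := by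
    intro v
    by_cases h : t v ∈ v.asIdeal ^ 2
    · obtain ⟨a, ha, ha2⟩ := exists_unif v
      refine ⟨a, ha, fun h2 => ha2 ?_⟩
      have e1 : a = t v - (t v - a) := by ring
      rw [e1]
      exact Ideal.sub_mem _ h h2
    · exact ⟨0, Ideal.zero_mem _, by rwa [sub_zero]⟩
  choose x hx1 hx2 using h1
  obtain ⟨e, he⟩ := IsDedekindDomain.exists_forall_sub_mem_ideal (s := T)
    (fun v : HeightOneSpectrum (𝓞 F) => v.asIdeal) (fun _ => 2) (fun v _ => v.prime)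
    (fun v _ v' _ hne h => hne (HeightOneSpectrum.ext h)) (fun v => x v.1)
  refine ⟨e, fun v hv => ⟨?_, fun h2 => hx2 v ?_⟩⟩
  · have h3 := Ideal.pow_le_self two_ne_zero (he v hv)
    have e1 : e = (e - x v) + x v := by ring
    rw [e1]
    exact Ideal.add_mem _ h3 (hx1 v)
  · have e1 : t v - x v = (t v - e) + (e - x v) := by ring
    rw [e1]
    exact Ideal.add_mem _ h2 (he v hv)

theorem exists_sqrt {v : HeightOneSpectrum (𝓞 F)} (h2 : (2 : 𝓞 F) ∈ v.asIdeal) (a : 𝓞 F) :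
    ∃ c : 𝓞 F, c ^ 2 - a ∈ v.asIdeal := by
  haveI : Finite (𝓞 F ⧸ v.asIdeal) := v.asIdeal.finiteQuotientOfFreeOfNeBot v.ne_bot
  haveI : v.asIdeal.IsMaximal := v.isMaximal
  letI : Field (𝓞 F ⧸ v.asIdeal) := Ideal.Quotient.field v.asIdeal
  have hch : ringChar (𝓞 F ⧸ v.asIdeal) = 2 := by
    have h3 : ((2 : ℕ) : 𝓞 F ⧸ v.asIdeal) = 0 := by
      have h4 : Ideal.Quotient.mk v.asIdeal (2 : 𝓞 F) = 0 := Ideal.Quotient.eq_zero_iff_mem.2 h2
      rw [map_ofNat] at h4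
      exact_mod_cast h4
    have h5 := ringChar.dvd h3
    rcases (Nat.dvd_prime Nat.prime_two).1 h5 with h | h
    · exfalso
      have h6 := CharP.ringChar_ne_one (R := 𝓞 F ⧸ v.asIdeal)
      exact h6 h
    · exact h
  obtain ⟨r, hr⟩ := FiniteField.isSquare_of_char_two hch (Ideal.Quotient.mk v.asIdeal a)
  obtain ⟨c, rfl⟩ := Ideal.Quotient.mk_surjective r
  refine ⟨c, ?_⟩
  rw [← Ideal.Quotient.eq_zero_iff_mem, map_sub, hr, map_pow]
  ring

theorem pol_eval (a b x : 𝓞 F) : (pol a b).eval x = x ^ 3 + a * x + b := by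
  simp [pol]

theorem pol_der (a b x : 𝓞 F) : (derivative (pol a b)).eval x = 3 * x ^ 2 + a := by
  simp [pol]
  left
  norm_num

theorem reg_of {v : HeightOneSpectrum (𝓞 F)} (h2 : (2 : 𝓞 F) ∈ v.asIdeal) {a b e c d : 𝓞 F}
    (hc : c ^ 2 - a ∈ v.asIdeal) (hd : d ^ 2 - (c ^ 3 + a * c + b) ∈ v.asIdeal)
    (he : e ∈ v.asIdeal) (hde : d ^ 2 - (c ^ 3 + a * c + b) - e ∉ v.asIdeal ^ 2) :
    RegP v (pol a (b + e)) := by
  intro x y hx hxy
  rw [pol_der] at hx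
  rw [pol_eval] at hxy
  have hp := v.isPrime
  have hm : ∀ {s t : 𝓞 F}, s ∈ v.asIdeal → t ∈ v.asIdeal → s * t ∈ v.asIdeal ^ 2 := by
    intro s t hs ht
    rw [pow_two]
    exact Ideal.mul_mem_mul hs ht
  -- `x` is congruent to `c`
  have h1 : x - c ∈ v.asIdeal := by
    have h3 : (x - c) ^ 2 ∈ v.asIdeal := by
      have e1 : (x - c) ^ 2 = (3 * x ^ 2 + a) + (c ^ 2 - a) - 2 * (x * c + x ^ 2) := by ring
      rw [e1]
      exact Ideal.sub_mem _ (Ideal.add_mem _ hx hc) (Ideal.mul_mem_right _ _ h2)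
    exact hp.mem_of_pow_mem 2 h3
  have hfc : 3 * c ^ 2 + a ∈ v.asIdeal := by
    have e1 : 3 * c ^ 2 + a = (c ^ 2 - a) + 2 * (c ^ 2 + a) := by ring
    rw [e1]
    exact Ideal.add_mem _ hc (Ideal.mul_mem_right _ _ h2)
  have h4 : (x ^ 3 + a * x + (b + e)) - (c ^ 3 + a * c + b) - e ∈ v.asIdeal ^ 2 := by
    have e1 : (x ^ 3 + a * x + (b + e)) - (c ^ 3 + a * c + b) - e =
        (3 * c ^ 2 + a) * (x - c) + (x - c) * ((x - c) * (x + 2 * c)) := by ring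
    rw [e1]
    exact Ideal.add_mem _ (hm hfc h1) (hm h1 (Ideal.mul_mem_right _ _ h1))
  have h5 : y - d ∈ v.asIdeal := by
    have h6 : (y - d) ^ 2 ∈ v.asIdeal := by
      have e1 : (y - d) ^ 2 = (y ^ 2 - (x ^ 3 + a * x + (b + e))) +
          ((x ^ 3 + a * x + (b + e)) - (c ^ 3 + a * c + b) - e) + e -
          (d ^ 2 - (c ^ 3 + a * c + b)) + 2 * (d ^ 2 - y * d) := by ring
      rw [e1]
      exact Ideal.add_mem _ (Ideal.sub_mem _ (Ideal.add_mem _ (Ideal.add_mem _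
        (Ideal.pow_le_self two_ne_zero hxy) (Ideal.pow_le_self two_ne_zero h4)) he) hd)
        (Ideal.mul_mem_right _ _ h2)
    exact hp.mem_of_pow_mem 2 h6
  apply hde
  have e1 : d ^ 2 - (c ^ 3 + a * c + b) - e = (y ^ 2 - (x ^ 3 + a * x + (b + e))) +
      ((x ^ 3 + a * x + (b + e)) - (c ^ 3 + a * c + b) - e) -
      ((y - d) * (y - d) + 2 * ((y - d) * d)) := by ring
  rw [e1]
  refine Ideal.sub_mem _ (Ideal.add_mem _ hxy h4) (Ideal.add_mem _ (hm h5 h5) ?_)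
  exact hm h2 (Ideal.mul_mem_right _ _ h5)

theorem gfi2 (hI : Pool.Agent.N874.TF.S_IRRK) (F : Type) [Field F] [NumberField F] (g M : ℕ)
    (hg : g = 1) :
    ∃ (W : ℕ) (f₁ : (𝓞 F)[X]), f₁.Monic ∧ f₁.natDegree = 2 * g + 1 ∧ f₁.coeff (2 * g) = 0 ∧
      0 < W ∧ 2 ∣ W ∧
      (∀ v : HeightOneSpectrum (𝓞 F), (W : 𝓞 F) ∈ v.asIdeal → Irreducible (rv v f₁)) ∧
      (∀ v : HeightOneSpectrum (𝓞 F), (W : 𝓞 F) ∈ v.asIdeal → (rv v f₁).Separable) ∧
      (∀ p : ℕ, p.Prime → p ≤ M → p ∣ W) ∧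
      (∀ v : HeightOneSpectrum (𝓞 F), (2 : 𝓞 F) ∈ v.asIdeal → (W : 𝓞 F) ∈ v.asIdeal ^ 2) ∧
      ∀ v : HeightOneSpectrum (𝓞 F), (2 : 𝓞 F) ∈ v.asIdeal → RegP v f₁ := by
  subst hg
  obtain ⟨W, f₁, h1, h2, h3, h4, h5, h6, h7, h8⟩ := gfi hI F 1 M le_rfl
  have h9 := eq_pol' h1 h2 h3
  set a := f₁.coeff 1 with ha
  set b := f₁.coeff 0 with hb
  have h2W : ∀ v : HeightOneSpectrum (𝓞 F), (2 : 𝓞 F) ∈ v.asIdeal → (W : 𝓞 F) ∈ v.asIdeal := by
    intro v hv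
    obtain ⟨m, hm⟩ := h5
    rw [hm, Nat.cast_mul, Nat.cast_ofNat]
    exact Ideal.mul_mem_right _ _ hv
  have hWne : Ideal.span {(W : 𝓞 F)} ≠ 0 := by
    rw [Ne, Ideal.zero_eq_bot, Ideal.span_singleton_eq_bot]
    exact_mod_cast h4.ne'
  have hfinS := Ideal.finite_factors hWne
  set T : Finset (HeightOneSpectrum (𝓞 F)) := hfinS.toFinset with hT
  have hmem : ∀ v : HeightOneSpectrum (𝓞 F), (W : 𝓞 F) ∈ v.asIdeal → v ∈ T := by
    intro v hv
    rw [hT, Set.Finite.mem_toFinset, Set.mem_setOf_eq, Ideal.dvd_span_singleton]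
    exact hv
  have hc : ∀ v : HeightOneSpectrum (𝓞 F), ∃ c d : 𝓞 F, (2 : 𝓞 F) ∈ v.asIdeal →
      c ^ 2 - a ∈ v.asIdeal ∧ d ^ 2 - (c ^ 3 + a * c + b) ∈ v.asIdeal := by
    intro v
    by_cases h : (2 : 𝓞 F) ∈ v.asIdeal
    · obtain ⟨c, hc⟩ := exists_sqrt h a
      obtain ⟨d, hd⟩ := exists_sqrt h (c ^ 3 + a * c + b)
      exact ⟨c, d, fun _ => ⟨hc, hd⟩⟩
    · exact ⟨0, 0, fun h' => absurd h' h⟩
  choose c d hcd using hc
  obtain ⟨e, he⟩ := exists_e T (fun v => d v ^ 2 - (c v ^ 3 + a * c v + b))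
  have he1 : ∀ v : HeightOneSpectrum (𝓞 F), (W : 𝓞 F) ∈ v.asIdeal → e ∈ v.asIdeal := by
    intro v hv
    exact (he v (hmem v hv)).1
  have hrv : ∀ v : HeightOneSpectrum (𝓞 F), (W : 𝓞 F) ∈ v.asIdeal →
      rv v (pol a (b + e)) = rv v f₁ := by
    intro v hv
    have h10 : Ideal.Quotient.mk v.asIdeal e = 0 := Ideal.Quotient.eq_zero_iff_mem.2 (he1 v hv)
    rw [h9]
    unfold rv pol
    simp only [Polynomial.map_add, Polynomial.map_mul, Polynomial.map_pow, Polynomial.map_X,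
      Polynomial.map_C, map_add, h10, C_0, add_zero]
  refine ⟨2 * W, pol a (b + e), pol_monic _ _, pol_natDegree _ _, pol_coeff2 _ _, by omega,
    Dvd.intro _ rfl, ?_, ?_, fun p hp hpM => Dvd.dvd.mul_left (h8 p hp hpM) 2, ?_, ?_⟩
  · intro v hv
    have hv' : (W : 𝓞 F) ∈ v.asIdeal := by
      rw [Nat.cast_mul, Nat.cast_ofNat] at hv
      rcases v.isPrime.mem_or_mem hv with h | h
      · exact h2W v h
      · exact h
    rw [hrv v hv']
    exact h6 v hv'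
  · intro v hv
    have hv' : (W : 𝓞 F) ∈ v.asIdeal := by
      rw [Nat.cast_mul, Nat.cast_ofNat] at hv
      rcases v.isPrime.mem_or_mem hv with h | h
      · exact h2W v h
      · exact h
    rw [hrv v hv']
    exact h7 v hv'
  · intro v hv
    rw [Nat.cast_mul, Nat.cast_ofNat, pow_two]
    exact Ideal.mul_mem_mul hv (h2W v hv)
  · intro v hv
    obtain ⟨hc1, hd1⟩ := hcd v hv
    have h := he v (hmem v (h2W v hv))
    exact reg_of hv hc1 hd1 h.1 h.2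

/-- The condition only depends on the residues modulo the square. -/
theorem RegP.congr {v : HeightOneSpectrum (𝓞 F)} {a b a' b' : 𝓞 F} (h : RegP v (pol a b))
    (ha : a' - a ∈ v.asIdeal ^ 2) (hb : b' - b ∈ v.asIdeal ^ 2) : RegP v (pol a' b') := by
  intro x y hx hxy
  rw [pol_der] at hx
  rw [pol_eval] at hxy
  refine h x y ?_ ?_
  · rw [pol_der]
    have e1 : 3 * x ^ 2 + a = (3 * x ^ 2 + a') - (a' - a) := by ring
    rw [e1]
    exact Ideal.sub_mem _ hx (Ideal.pow_le_self two_ne_zero ha)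
  · rw [pol_eval]
    have e1 : y ^ 2 - (x ^ 3 + a * x + b) = (y ^ 2 - (x ^ 3 + a' * x + b')) +
        ((a' - a) * x + (b' - b)) := by ring
    rw [e1]
    exact Ideal.add_mem _ hxy (Ideal.add_mem _ (Ideal.mul_mem_right _ _ ha) hb)

end Pool.Agent.Helper82.SX
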