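import Pool.Agent.Helper82.SX.Inf
import Pool.Agent.Helper82.SX.Tra
import Pool.Agent.Helper82.SX.Gfi
import Pool.Graph.R_pool_sql_team_seeded_63374d34.N874.TF.Fin

/-!
# Project SX (helper82): sections over the fields of the class
-/

set_option autoImplicit false
set_option linter.all false

open Polynomial IsDedekindDomain NumberField WeierstrassCurve
open scoped Classical

namespace Pool.Agent.Helper82.SX

open Pool.Agent.TH942 (sw)
open Pool.Agent.TH954
open Pool.Agent.W620.SC (unramified)
open Pool.Agent.Helper82.PT.Rn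
open Pool.Agent.N61.PF (pol pol_monic pol_natDegree)
open Pool.Agent.N783.PF (fF rd)
open Pool.Agent.N874.TF (fM)

variable {F M : Type} [Field F] [NumberField F] [Field M] [NumberField M] [Algebra F M]

/-- One real root. -/
theorem real_one {A B : F} (hmo : ∀ σ : F →+* ℝ, 0 < σ A) (w : InfinitePlace M) :
    IsAlgClosed w.Completion ∨ ∀ x y : w.Completion,
      x ^ 3 + algebraMap M w.Completion (algebraMap F M A) * x +
        algebraMap M w.Completion (algebraMap F M B) = 0 →
      y ^ 3 + algebraMap M w.Completion (algebraMap F M A) * y +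
        algebraMap M w.Completion (algebraMap F M B) = 0 → x = y := by
  rcases w.isReal_or_isComplex with h | h
  · right
    intro x y hx hy
    set e := InfinitePlace.Completion.ringEquivRealOfIsReal h with he
    let σ : F →+* ℝ := ((e : w.Completion →+* ℝ).comp (algebraMap M w.Completion)).comp
      (algebraMap F M)
    have h1 : 0 < e (algebraMap M w.Completion (algebraMap F M A)) := hmo σ
    by_contra hne
    have h2 : (x - y) * (x ^ 2 + x * y + y ^ 2 +
        algebraMap M w.Completion (algebraMap F M A)) = 0 := by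
      linear_combination hx - hy
    rcases mul_eq_zero.1 h2 with h3 | h3
    · exact hne (sub_eq_zero.1 h3)
    · have h4 := congrArg e h3
      simp only [map_add, map_mul, map_pow, map_zero] at h4
      nlinarith [sq_nonneg (e x + e y), sq_nonneg (e x), sq_nonneg (e y)]
  · left
    exact IsAlgClosed.of_ringEquiv ℂ w.Completion
      (InfinitePlace.Completion.ringEquivComplexOfIsComplex h).symm

/-- The condition for the derivative. -/
theorem mono_pos {a b : 𝓞 F} (h : Pool.Agent.Helper82.TU.MonoF (pol a b)) (σ : F →+* ℝ) :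
    0 < σ (a : F) := by
  have h1 := h σ 0
  have e : (fF (pol a b)).map σ = X ^ 3 + C (σ (a : F)) * X + C (σ (b : F)) := by
    unfold pol
    simp [fF]
  rw [e] at h1
  simpa using h1

/-- The two conditions modulo `v` and its square. -/
theorem reg2_of {v : HeightOneSpectrum (𝓞 F)} {a b : 𝓞 F} (h1 : RegP v (pol a b))
    (h2 : Irreducible (rd v.asIdeal (pol a b))) : Reg2 v a b := by
  refine ⟨fun x hx => ?_, fun x y hx hxy => ?_⟩
  · haveI : v.asIdeal.IsMaximal := v.isMaximal
    letI : Field (𝓞 F ⧸ v.asIdeal) := Ideal.Quotient.field _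
    have h3 : (rd v.asIdeal (pol a b)).natDegree = 3 := by
      rw [rd, (pol_monic a b).natDegree_map, pol_natDegree]
    have h4 : (rd v.asIdeal (pol a b)).eval (Ideal.Quotient.mk v.asIdeal x) = 0 := by
      rw [rd, eval_map, eval₂_at_apply, pol_eval, Ideal.Quotient.eq_zero_iff_mem]
      exact hx
    have h5 := Polynomial.degree_eq_one_of_irreducible_of_root h2 h4
    have h6 := Polynomial.natDegree_eq_of_degree_eq_some h5
    have h7 : (3 : ℕ) = 1 := h3.symm.trans h6
    exact absurd h7 (by decide)
  · refine h1 x y ?_ ?_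
    · rw [pol_der]; exact hx
    · rw [pol_eval]; exact hxy

/-- The place of `L` given by a place of `N`. -/
theorem place_down {K L N B : Type} [Field K] [CharZero K] [Field L] [Field N] [Field B]
    [Algebra K L] [Algebra L N] [Algebra K N] [Algebra K B] [IsScalarTower K L N]
    [IsAlgClosure K B] [Algebra.IsAlgebraic L N] (s : GalSection K L N B) {E : Type} [Field E]
    [CharZero E] [Algebra K E] (p : Plc K N (AlgebraicClosure E)) (hp : s.GivenBy E p) :
    ∃ p₀ : Plc K L E, p₀.W = p.W.comap (algebraMap L N) := by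
  have hfix : ∀ (z : L) (hz : algebraMap L N z ∈ p.W),
      p.ρ ⟨algebraMap L N z, hz⟩ ∈ (algebraMap E (AlgebraicClosure E)).range := by
    intro z hz
    have h1 : p.ρ ⟨algebraMap L N z, hz⟩ ∈ Set.range (algebraMap E (AlgebraicClosure E)) := by
      rw [InfiniteGalois.mem_range_algebraMap_iff_fixed]
      intro σ
      obtain ⟨τ, hτ⟩ := exists_compat (p.iot (toSAct s).j) σ
      obtain ⟨h2, h3⟩ := geo_of s p hp σ τ hτ ⟨_, hz⟩
      have h4 : (toSAct s).s τ (algebraMap L N z) = algebraMap L N z :=
        (s.s ((eqv K B).autCongr τ)).commutes z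
      rw [← h3]
      congr 1
      exact Subtype.ext h4
    exact h1
  let g : (algebraMap E (AlgebraicClosure E)).range →+* E :=
    ((RingEquiv.ofLeftInverse
      (Function.leftInverse_invFun (algebraMap E (AlgebraicClosure E)).injective)).symm :
        (algebraMap E (AlgebraicClosure E)).range ≃+* E)
  have hg : ∀ (z : AlgebraicClosure E) (hz : z ∈ (algebraMap E (AlgebraicClosure E)).range),
      algebraMap E (AlgebraicClosure E) (g ⟨z, hz⟩) = z := by
    intro z hz
    have h1 := (RingEquiv.ofLeftInverse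
      (Function.leftInverse_invFun (algebraMap E (AlgebraicClosure E)).injective)).apply_symm_apply
        ⟨z, hz⟩
    exact congrArg Subtype.val h1
  let ι : (p.W.comap (algebraMap L N)) →+* p.W :=
    { toFun := fun z => ⟨algebraMap L N z.1, z.2⟩
      map_one' := Subtype.ext (map_one _)
      map_mul' := fun x y => Subtype.ext (map_mul _ _ _)
      map_zero' := Subtype.ext (map_zero _)
      map_add' := fun x y => Subtype.ext (map_add _ _ _) }
  let r : (p.W.comap (algebraMap L N)) →+* (algebraMap E (AlgebraicClosure E)).range :=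
    RingHom.codRestrict (p.ρ.comp ι) _ (fun z => hfix z.1 z.2)
  have hr : ∀ z, algebraMap E (AlgebraicClosure E) (g (r z)) = p.ρ (ι z) :=
    fun z => hg _ (hfix z.1 z.2)
  refine ⟨⟨p.W.comap (algebraMap L N), g.comp r, ?_, ?_⟩, rfl⟩
  · intro x hx
    have h1 : p.ρ (ι x) ≠ 0 := by
      rw [← hr, Ne, map_eq_zero]
      exact hx
    have h2 := p.loc (ι x) h1
    change algebraMap L N (x : L)⁻¹ ∈ p.W
    rw [map_inv₀]
    exact h2
  · intro c
    obtain ⟨h1, h2⟩ := p.comm c
    have h3 : algebraMap K L c ∈ p.W.comap (algebraMap L N) := by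
      rw [ValuationSubring.mem_comap, ← IsScalarTower.algebraMap_apply]
      exact h1
    refine ⟨h3, ?_⟩
    apply (algebraMap E (AlgebraicClosure E)).injective
    change algebraMap E (AlgebraicClosure E) (g (r ⟨_, h3⟩)) = _
    rw [hr, ← IsScalarTower.algebraMap_apply, ← h2]
    congr 1
    exact Subtype.ext (IsScalarTower.algebraMap_apply K L N c).symm

section main

variable {L Ω N B : Type} [Field L] [Field Ω] [Field N]
  [Field B] [Algebra M L] [Algebra L Ω] [Algebra M Ω] [IsScalarTower M L Ω] [Algebra L N]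
  [Algebra M N] [IsScalarTower M L N] [Algebra M B] [IsAlgClosure L Ω] [IsAlgClosure M B]

/-- **Locally geometric sections.** -/
theorem sec_fin [IsGalois F M] {n : ℕ} (hM : Module.finrank F M = 2 ^ n) {a b : 𝓞 F}
    (hirr : Irreducible (fF (pol a b))) (hsel : Pool.Agent.N874.QM.SelM M (fM M (pol a b)))
    (hmo : Pool.Agent.Helper82.TU.MonoF (pol a b))
    (h2i : ∀ v : HeightOneSpectrum (𝓞 F), (2 : 𝓞 F) ∈ v.asIdeal →
      Irreducible (rd v.asIdeal (pol a b)))
    (h2r : ∀ v : HeightOneSpectrum (𝓞 F), (2 : 𝓞 F) ∈ v.asIdeal → RegP v (pol a b))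
    (h2M : ∀ v : HeightOneSpectrum (𝓞 F), (2 : 𝓞 F) ∈ v.asIdeal →
      Nonempty (M →ₐ[F] v.adicCompletion F))
    (U : Set (ValuationSubring L)) (hU : ∀ O ∈ U, ∀ c : M, algebraMap M L c ∈ O)
    (e : N →ₐ[L] Ω) (he : unramified L Ω U ≤ e.fieldRange) {x y : L}
    (h : ((sw (algebraMap F M (a : F)) (algebraMap F M (b : F))).baseChange L).toAffine.Nonsingular
      x y) (s : GalSection M L N B)
    (hs : ∀ v : HeightOneSpectrum (𝓞 M),
      s.GeometricOver (v.adicCompletion M) (AlgebraicClosure (v.adicCompletion M))) :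
    (∀ m : ℕ, ∃ Q : ((sw (algebraMap F M (a : F)) (algebraMap F M (b : F))).baseChange
        N).toAffine.Point,
      2 ^ m • Q = pm (sw (algebraMap F M (a : F)) (algebraMap F M (b : F)))
        (IsScalarTower.toAlgHom M L N) (.some x y h) ∧
      ∀ g : B ≃ₐ[M] B, pm (sw (algebraMap F M (a : F)) (algebraMap F M (b : F)))
        ((s.s g : N →ₐ[L] N).restrictScalars M) Q = Q) ∧
    ∀ w : HeightOneSpectrum (𝓞 M), (2 : 𝓞 M) ∈ w.asIdeal →
      (∃ q₀ : Plc M L (w.adicCompletion M), x ∉ q₀.W) ∧
      ∀ q : Plc M N (AlgebraicClosure (w.adicCompletion M)), s.GivenBy (w.adicCompletion M) q →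
        algebraMap L N x ∉ q.W := by
  have hmK : (fF (pol a b)).Monic := (pol_monic a b).map _
  have hdK : Odd (fF (pol a b)).natDegree := by
    rw [fF, (pol_monic a b).natDegree_map, pol_natDegree]
    decide
  have hiM : Irreducible (fM M (pol a b)) := Pool.Agent.N874.JM.irr_up hM hirr hmK hdK
  rw [Pool.Agent.N874.TF.fM_eq] at hiM hsel
  have hd := Pool.Agent.N61.PF.disc_ne hiM
  have hMalg : Algebra.IsAlgebraic L N := by
    haveI : Algebra.IsAlgebraic L Ω := IsAlgClosure.isAlgebraic
    exact Algebra.IsAlgebraic.of_injective e e.injective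
  choose p hp using hs
  have hdiv : ∀ m : ℕ, ∃ Q : ((sw (algebraMap F M (a : F)) (algebraMap F M (b : F))).baseChange
        N).toAffine.Point,
      2 ^ m • Q = pm (sw (algebraMap F M (a : F)) (algebraMap F M (b : F)))
        (IsScalarTower.toAlgHom M L N) (.some x y h) ∧
      ∀ g : B ≃ₐ[M] B, pm (sw (algebraMap F M (a : F)) (algebraMap F M (b : F)))
        ((s.s g : N →ₐ[L] N).restrictScalars M) Q = Q := by
    intro m
    refine sec_core hd hiM hsel U hU e he (.some x y h) s p hp (fun ξ hξ w => ?_) m
    haveI : CharZero w.Completion :=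
      charZero_of_injective_algebraMap (algebraMap M w.Completion).injective
    exact triv_inf hd hξ.1 w.Completion (twoGal_inf w) (real_one (mono_pos hmo) w)
  refine ⟨hdiv, fun w hw => ?_⟩
  have key : ∀ q : Plc M N (AlgebraicClosure (w.adicCompletion M)),
      s.GivenBy (w.adicCompletion M) q → algebraMap L N x ∉ q.W := by
    intro q hq
    have hv : (2 : 𝓞 F) ∈ (blw F w).asIdeal := by
      rw [mem_blw, map_ofNat]
      exact hw
    obtain ⟨σ⟩ := h2M _ hv
    exact sec_two hd s (.some x y h) hdiv
      (hyp_of (reg2_of (h2r _ hv) (h2i _ hv)) hv σ rfl) q hq h rfl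
  refine ⟨?_, key⟩
  haveI : CharZero (w.adicCompletion M) :=
    charZero_of_injective_algebraMap (algebraMap M (w.adicCompletion M)).injective
  obtain ⟨q₀, hq₀⟩ := place_down s (p w) (hp w)
  refine ⟨q₀, ?_⟩
  rw [hq₀]
  exact key (p w) (hp w)

end main

end Pool.Agent.Helper82.SX
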