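import Pool.Agent.Helper82.SX.Sec
import Pool.Graph.R_seed8.TH954.SArch
import Pool.Agent.Helper82.TU.Abs

/-!
# Project SX (helper82): the infinite places

If `x ^ 3 + a x + b` has only one real root then all cocycles with values in the points of the curve
are trivial over the real numbers.
-/

set_option autoImplicit false
set_option linter.all false

open Polynomial IsDedekindDomain NumberField WeierstrassCurve
open scoped Classical

namespace Pool.Agent.Helper82.SX

open Pool.Agent.TH942 (sw sw_eqn)
open Pool.Agent.TH954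

section tor

variable {K : Type} [Field K] [CharZero K] {a b : K}

theorem base_eq {M : Type} [Field M] [Algebra K M] (a b : K) :
    (sw a b).baseChange M = sw (algebraMap K M a) (algebraMap K M b) := by
  refine WeierstrassCurve.ext ?_ ?_ ?_ ?_ ?_
  · change algebraMap K M 0 = 0
    exact map_zero _
  · change algebraMap K M 0 = 0
    exact map_zero _
  · change algebraMap K M 0 = 0
    exact map_zero _
  · rfl
  · rfl

theorem tor_some {M : Type} [Field M] [CharZero M] [Algebra K M] {x y : M}
    {h : ((sw a b).baseChange M).toAffine.Nonsingular x y}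
    (h2 : 2 • (Affine.Point.some x y h : ((sw a b).baseChange M).toAffine.Point) = 0) :
    y = 0 ∧ x ^ 3 + algebraMap K M a * x + algebraMap K M b = 0 := by
  rw [two_nsmul, add_eq_zero_iff_eq_neg, Affine.Point.neg_some, Affine.Point.some.injEq] at h2
  have h3 := h2.2
  have e1 : ((sw a b).baseChange M).toAffine.negY x y = -y := by
    simp [Affine.negY, base_eq, sw]
  rw [e1] at h3
  have hy : y = 0 := by
    have : (2 : M) * y = 0 := by linear_combination h3
    rcases mul_eq_zero.1 this with h | h
    · exact absurd h two_ne_zero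
    · exact h
  refine ⟨hy, ?_⟩
  have h4 := h.1
  rw [base_eq] at h4
  have h5 := sw_eqn.1 h4
  rw [hy] at h5
  linear_combination -h5

theorem some_tor {M : Type} [Field M] [CharZero M] [Algebra K M] (hD : 4 * a ^ 3 + 27 * b ^ 2 ≠ 0)
    {x : M} (hx : x ^ 3 + algebraMap K M a * x + algebraMap K M b = 0) :
    ∃ h : ((sw a b).baseChange M).toAffine.Nonsingular x 0,
      2 • (Affine.Point.some x 0 h : ((sw a b).baseChange M).toAffine.Point) = 0 := by
  have hD' : 4 * (algebraMap K M a) ^ 3 + 27 * (algebraMap K M b) ^ 2 ≠ 0 := by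
    have e : 4 * (algebraMap K M a) ^ 3 + 27 * (algebraMap K M b) ^ 2 =
        algebraMap K M (4 * a ^ 3 + 27 * b ^ 2) := by
      simp only [map_add, map_mul, map_pow, map_ofNat]
    rw [e, Ne, map_eq_zero]
    exact hD
  have h : ((sw a b).baseChange M).toAffine.Nonsingular x 0 := by
    rw [base_eq]
    exact Pool.Agent.TH942.sw_nonsing hD' (by linear_combination -hx)
  refine ⟨h, ?_⟩
  rw [two_nsmul, add_eq_zero_iff_eq_neg, Affine.Point.neg_some, Affine.Point.some.injEq]
  refine ⟨rfl, ?_⟩
  simp [Affine.negY, base_eq, sw]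

end tor

section triv

variable {K : Type} [Field K] [CharZero K] {a b : K}

/-- The local condition at the infinite places. -/
theorem triv_inf (hD : 4 * a ^ 3 + 27 * b ^ 2 ≠ 0)
    {η : (AlgebraicClosure K ≃ₐ[K] AlgebraicClosure K) → AlgPt (sw a b) K}
    (hη : ∀ σ τ, η (σ * τ) = η σ + act (sw a b) σ (η τ)) (L : Type) [Field L] [CharZero L]
    [Algebra K L] (hL : TwoGal L)
    (h1L : IsAlgClosed L ∨ ∀ x y : L, x ^ 3 + algebraMap K L a * x + algebraMap K L b = 0 →
      y ^ 3 + algebraMap K L a * y + algebraMap K L b = 0 → x = y) :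
    TrivialOver (sw a b) η L := by
  haveI : CharZero (AlgebraicClosure L) :=
    charZero_of_injective_algebraMap (algebraMap L (AlgebraicClosure L)).injective
  obtain ⟨c, hc2, hc⟩ := hL
  let ι : AlgebraicClosure K →ₐ[K] AlgebraicClosure L :=
    IsAlgClosed.lift (R := K) (S := AlgebraicClosure K) (M := AlgebraicClosure L)
  obtain ⟨τc, hτc⟩ := exists_compat ι c
  have huniq : ∀ σ τ τ', Compat ι σ τ → Compat ι σ τ' → τ = τ' := by
    intro σ τ τ' h h'
    apply AlgEquiv.ext
    intro z
    exact ι.injective ((h z).trans (h' z).symm)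
  have hone : Compat ι (1 : AlgebraicClosure L ≃ₐ[L] AlgebraicClosure L) 1 := fun z => rfl
  have hsq : τc * τc = 1 := by
    apply huniq 1 _ _ _ hone
    intro z
    rw [← hc2]
    change ι (τc (τc z)) = c (c (ι z))
    rw [hτc, hτc]
  have hact1 : ∀ T : AlgPt (sw a b) K,
      act (sw a b) (1 : AlgebraicClosure K ≃ₐ[K] AlgebraicClosure K) T = T := by
    intro T
    cases T <;> rfl
  have hact1' : ∀ T : AlgPt (sw a b) L,
      act (sw a b) (1 : AlgebraicClosure L ≃ₐ[L] AlgebraicClosure L) T = T := by
    intro T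
    cases T <;> rfl
  have h1 : η 1 = 0 := by
    have := hη 1 1
    rw [one_mul, hact1] at this
    exact left_eq_add.mp this
  have h2 : act (sw a b) τc (η τc) = - η τc := by
    have := hη τc τc
    rw [hsq, h1] at this
    exact (neg_eq_of_add_eq_zero_right this.symm).symm
  -- it suffices to treat `c`
  have key : ∀ R : AlgPt (sw a b) L, pm (sw a b) ι (η τc) = act (sw a b) c R - R →
      TrivialOver (sw a b) η L := by
    intro R hR
    refine ⟨ι, R, fun σ τ hστ => ?_⟩
    rcases hc σ with rfl | rfl
    · have : τ = 1 := huniq 1 _ _ hστ hone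
      subst this
      rw [h1, map_zero, hact1', sub_self]
    · have : τ = τc := huniq _ _ _ hστ hτc
      subst this
      exact hR
  rcases h1L with hac | h1r
  · have hsur : Function.Surjective (algebraMap L (AlgebraicClosure L)) :=
      (IsAlgClosed.algebraMap_bijective_of_isIntegral (k := L) (K := AlgebraicClosure L)).2
    have hc1 : c = 1 := by
      apply AlgEquiv.ext
      intro x
      obtain ⟨y, rfl⟩ := hsur x
      exact c.commutes y
    refine key 0 ?_
    have : τc = 1 := huniq c _ _ hτc (by rw [hc1]; exact hone)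
    rw [this, h1, map_zero]
    exact (by rw [hc1, hact1', sub_self] : act (sw a b) c (0 : AlgPt (sw a b) L) - 0 = 0).symm
  -- one real root
  set Q := pm (sw a b) ι (η τc) with hQ
  have hcQ : act (sw a b) c Q = - Q := by
    rw [hQ, act_pm ι hτc, h2, map_neg]
  have hcc : ∀ P : AlgPt (sw a b) L, act (sw a b) c (act (sw a b) c P) = P := by
    intro P
    have e1 : act (sw a b) c (act (sw a b) c P) = act (sw a b) (c * c) P := by
      unfold act
      rw [pm_pm]
      rfl
    rw [e1, hc2, hact1']
  have hfx : ∀ P : AlgPt (sw a b) L, act (sw a b) c P = P →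
      ∀ σ : AlgebraicClosure L ≃ₐ[L] AlgebraicClosure L, act (sw a b) σ P = P := by
    intro P hP σ
    rcases hc σ with rfl | rfl
    · exact hact1' P
    · exact hP
  have huq : ∀ P P' : AlgPt (sw a b) L, act (sw a b) c P = P → act (sw a b) c P' = P' →
      2 • P = 0 → 2 • P' = 0 → P ≠ 0 → P' ≠ 0 → P = P' := by
    intro P P' k1 k2 k3 k4 k5 k6
    obtain ⟨p, rfl⟩ := exists_of_fixed P (hfx P k1)
    obtain ⟨p', rfl⟩ := exists_of_fixed P' (hfx P' k2)
    have k7 : 2 • p = 0 := by
      apply incl_injective (E := sw a b) (L := L)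
      have e : incl (sw a b) L (2 • p) = 2 • incl (sw a b) L p := map_nsmul _ _ _
      rw [e, k3]
      rfl
    have k8 : 2 • p' = 0 := by
      apply incl_injective (E := sw a b) (L := L)
      have e : incl (sw a b) L (2 • p') = 2 • incl (sw a b) L p' := map_nsmul _ _ _
      rw [e, k4]
      rfl
    congr 1
    rcases p with _ | ⟨x, y, h⟩
    · exact absurd rfl k5
    rcases p' with _ | ⟨x', y', h'⟩
    · exact absurd rfl k6
    obtain ⟨m1, m2⟩ := tor_some k7
    obtain ⟨m3, m4⟩ := tor_some k8
    have m5 := h1r x x' m2 m4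
    subst m1 m3 m5
    rfl
  have hmv : ∀ t : AlgPt (sw a b) L, act (sw a b) c t = t → 2 • t = 0 → t ≠ 0 →
      ∃ u : AlgPt (sw a b) L, 2 • u = 0 ∧ act (sw a b) c u + u = t := by
    intro t k1 k2 k3
    obtain ⟨e, y, h, ht⟩ : ∃ e y h, t = .some e y h := by
      rcases t with _ | ⟨x, y, h⟩
      · exact absurd rfl k3
      · exact ⟨x, y, h, rfl⟩
    have k4 : y = 0 ∧ _ := tor_some (by rw [← ht]; exact k2)
    set a' := algebraMap K (AlgebraicClosure L) a with ha'
    set b' := algebraMap K (AlgebraicClosure L) b with hb'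
    obtain ⟨e₂, he₂⟩ := IsAlgClosed.exists_root (X ^ 2 + C e * X + C (e ^ 2 + a')) (by
      have : (X ^ 2 + C e * X + C (e ^ 2 + a')).degree = 2 := by compute_degree!
      rw [this]
      norm_num)
    have he₂' : e₂ ^ 2 + e * e₂ + (e ^ 2 + a') = 0 := by
      have := he₂
      simp only [IsRoot.def, eval_add, eval_mul, eval_pow, eval_X, eval_C] at this
      exact this
    have hroot : e₂ ^ 3 + a' * e₂ + b' = 0 := by
      linear_combination (e₂ - e) * he₂' + k4.2
    have hD' : 4 * a' ^ 3 + 27 * b' ^ 2 ≠ 0 := by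
      have e : 4 * a' ^ 3 + 27 * b' ^ 2 =
          algebraMap K (AlgebraicClosure L) (4 * a ^ 3 + 27 * b ^ 2) := by
        simp only [map_add, map_mul, map_pow, map_ofNat, ha', hb']
      rw [e, Ne, map_eq_zero]
      exact hD
    have hne : e₂ ≠ e := by
      rintro rfl
      apply hD'
      have h3 : 3 * e₂ ^ 2 + a' = 0 := by linear_combination he₂'
      have h4 := k4.2
      have ha2 : a' = -3 * e₂ ^ 2 := by linear_combination h3
      have hb2 : b' = 2 * e₂ ^ 3 := by
        have : b' = -e₂ ^ 3 - a' * e₂ := by linear_combination h4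
        rw [this, ha2]
        ring
      rw [ha2, hb2]
      ring
    obtain ⟨hn2, hu2⟩ := some_tor hD hroot
    set u : AlgPt (sw a b) L := .some e₂ 0 hn2 with hu
    have hu0 : u ≠ 0 := Affine.Point.some_ne_zero _
    have hcu : act (sw a b) c u ≠ u := by
      intro h5
      have h6 := huq u t h5 k1 hu2 k2 hu0 k3
      rw [ht, hu, Affine.Point.some.injEq] at h6
      exact hne h6.1
    refine ⟨u, hu2, ?_⟩
    refine huq _ _ ?_ k1 ?_ k2 ?_ k3
    · rw [act_add, hcc, add_comm]
    · have e1 : act (sw a b) c (2 • u) = 2 • act (sw a b) c u := act_nsmul _ _ _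
      rw [hu2] at e1
      have e2 : act (sw a b) c (0 : AlgPt (sw a b) L) = 0 := map_zero (pm (sw a b) _)
      rw [e2] at e1
      rw [ns_add, ← e1, hu2, add_zero]
    · intro h5
      apply hcu
      have h6 : u = -u := by
        rw [two_nsmul] at hu2
        exact eq_neg_of_add_eq_zero_left hu2
      rw [add_eq_zero_iff_eq_neg, ← h6] at h5
      exact h5
  obtain ⟨R₀, hR₀⟩ := exists_nsmul_base hD (AlgebraicClosure L) (n := 2) (by norm_num) Q
  have ht2 : 2 • (act (sw a b) c R₀ + R₀) = 0 := by
    have e1 : act (sw a b) c (2 • R₀) = 2 • act (sw a b) c R₀ := act_nsmul _ _ _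
    rw [ns_add, ← e1, hR₀, hcQ, neg_add_cancel]
  have htc : act (sw a b) c (act (sw a b) c R₀ + R₀) = act (sw a b) c R₀ + R₀ := by
    rw [act_add, hcc, add_comm]
  obtain ⟨R, hR, hRt⟩ : ∃ R : AlgPt (sw a b) L, 2 • R = Q ∧ act (sw a b) c R + R = 0 := by
    by_cases h0 : act (sw a b) c R₀ + R₀ = 0
    · exact ⟨R₀, hR₀, h0⟩
    · obtain ⟨u, hu, hut⟩ := hmv _ htc ht2 h0
      refine ⟨R₀ + u, ?_, ?_⟩
      · rw [ns_add, hu, add_zero, hR₀]
      · rw [act_add]
        have e1 : act (sw a b) c R₀ + act (sw a b) c u + (R₀ + u) =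
            (act (sw a b) c R₀ + R₀) + (act (sw a b) c u + u) := by abel
        rw [e1, hut, ← two_nsmul]
        exact ht2
  refine key (-R) ?_
  have e1 : act (sw a b) c (-R) = -act (sw a b) c R := map_neg _ _
  have e2 : act (sw a b) c R = -R := eq_neg_of_add_eq_zero_left hRt
  rw [e1, e2, neg_neg, sub_neg_eq_add, ← two_nsmul, hR]

end triv

end Pool.Agent.Helper82.SX
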