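import Pool.Agent.Helper82.SX.Fin

/-!
# Project SX (helper82): the group of points over the fields of the class is zero
-/

set_option autoImplicit false
set_option linter.all false

open Polynomial IsDedekindDomain NumberField WeierstrassCurve
open scoped Classical

namespace Pool.Agent.Helper82.SX

open Pool.Agent.TH942 (sw)
open Pool.Agent.TH954
open Pool.Agent.Helper82.PT.Rn
open Pool.Agent.N61.PF (pol pol_monic pol_natDegree)
open Pool.Agent.N783.PF (fF rd)
open Pool.Agent.N874.TF (fM)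

variable {F M : Type} [Field F] [NumberField F] [Field M] [NumberField M] [Algebra F M]

/-- There is a prime over `2`. -/
theorem exists_two (K : Type) [Field K] [NumberField K] :
    ∃ w : HeightOneSpectrum (𝓞 K), (2 : 𝓞 K) ∈ w.asIdeal := by
  have h2 : ¬ IsUnit (2 : 𝓞 K) := by
    intro hu
    have h1 := hu.map (Algebra.norm ℤ (S := 𝓞 K))
    have h2 : Algebra.norm ℤ ((2 : ℤ) : 𝓞 K) = 2 ^ Module.finrank ℤ (𝓞 K) := by
      have := Algebra.norm_algebraMap_of_basis (NumberField.RingOfIntegers.basis K) (2 : ℤ)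
      rw [Module.finrank_eq_card_basis (NumberField.RingOfIntegers.basis K)]
      simpa using this
    have e : ((2 : ℤ) : 𝓞 K) = 2 := by norm_num
    rw [e] at h2
    rw [h2] at h1
    have h3 : Module.finrank ℤ (𝓞 K) ≠ 0 := by
      rw [RingOfIntegers.rank]
      exact Module.finrank_pos.ne'
    rw [isUnit_pow_iff h3] at h1
    rw [Int.isUnit_iff] at h1
    omega
  obtain ⟨m, hm, hle⟩ := Ideal.exists_le_maximal (Ideal.span {(2 : 𝓞 K)}) (by
    rw [Ne, Ideal.span_singleton_eq_top]
    exact h2)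
  have h20 : (2 : 𝓞 K) ∈ m := hle (Ideal.mem_span_singleton_self _)
  refine ⟨⟨m, hm.isPrime, ?_⟩, h20⟩
  rintro rfl
  rw [Ideal.mem_bot] at h20
  exact two_ne_zero h20

/-- **The group of points is zero.** -/
theorem pts_zero [IsGalois F M] {n : ℕ} (hM : Module.finrank F M = 2 ^ n) {a b : 𝓞 F}
    (hirr : Irreducible (fF (pol a b))) (hsel : Pool.Agent.N874.QM.SelM M (fM M (pol a b)))
    (h2i : ∀ v : HeightOneSpectrum (𝓞 F), (2 : 𝓞 F) ∈ v.asIdeal →
      Irreducible (rd v.asIdeal (pol a b)))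
    (h2r : ∀ v : HeightOneSpectrum (𝓞 F), (2 : 𝓞 F) ∈ v.asIdeal → RegP v (pol a b))
    (h2M : ∀ v : HeightOneSpectrum (𝓞 F), (2 : 𝓞 F) ∈ v.asIdeal →
      Nonempty (M →ₐ[F] v.adicCompletion F)) :
    ∀ P : ((sw (algebraMap F M (a : F)) (algebraMap F M (b : F))).baseChange M).toAffine.Point,
      P = 0 := by
  have hmK : (fF (pol a b)).Monic := (pol_monic a b).map _
  have hdK : Odd (fF (pol a b)).natDegree := by
    rw [fF, (pol_monic a b).natDegree_map, pol_natDegree]
    decide
  have hiM : Irreducible (fM M (pol a b)) := Pool.Agent.N874.JM.irr_up hM hirr hmK hdK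
  rw [Pool.Agent.N874.TF.fM_eq] at hiM hsel
  have hd := Pool.Agent.N61.PF.disc_ne hiM
  have hselC := Pool.Agent.N874.TC.selc M _ _ hd hiM hsel
  obtain ⟨hdiv, -⟩ := Pool.Agent.N713.QM.gfc M _ _ hd hselC
  have hdiv1 : ∀ P : ((sw (algebraMap F M (a : F)) (algebraMap F M (b : F))).baseChange
      M).toAffine.Point, ∃ Q : ((sw (algebraMap F M (a : F)) (algebraMap F M (b : F))).baseChange
      M).toAffine.Point, P = (2 : ℕ) • Q := hdiv
  have hdiv2 : ∀ (m : ℕ) (P : ((sw (algebraMap F M (a : F)) (algebraMap F M (b : F))).baseChange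
      M).toAffine.Point), ∃ Q : ((sw (algebraMap F M (a : F)) (algebraMap F M (b : F))).baseChange
      M).toAffine.Point, P = 2 ^ m • Q := by
    intro m
    induction m with
    | zero => exact fun P => ⟨P, by simp⟩
    | succ m ih =>
      intro P
      obtain ⟨Q, hQ⟩ := ih P
      obtain ⟨Q', hQ'⟩ := hdiv1 Q
      refine ⟨Q', ?_⟩
      rw [hQ, hQ', pow_succ, mul_smul]
  obtain ⟨w, hw⟩ := exists_two M
  have hv : (2 : 𝓞 F) ∈ (blw F w).asIdeal := by
    rw [mem_blw, map_ofNat]
    exact hw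
  obtain ⟨σ⟩ := h2M _ hv
  have hyp := hyp_of (reg2_of (h2r _ hv) (h2i _ hv)) hv σ (w := w) rfl
  haveI : CharZero (w.adicCompletion M) :=
    charZero_of_injective_algebraMap (algebraMap M (w.adicCompletion M)).injective
  have hb := base_eq (M := w.adicCompletion M) (algebraMap F M (a : F)) (algebraMap F M (b : F))
  generalize sw (algebraMap F M (a : F)) (algebraMap F M (b : F)) = E at hdiv2 hb ⊢
  intro P
  let j : M →ₐ[M] w.adicCompletion M := Algebra.ofId M (w.adicCompletion M)
  apply pm_injective (E := E) j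
  rw [map_zero]
  refine hyp.zero (W := E.baseChange (w.adicCompletion M)) hb _ (fun m => ?_)
  obtain ⟨Q, hQ⟩ := hdiv2 m P
  refine ⟨pm E j Q, ?_⟩
  rw [← map_nsmul, ← hQ]

end Pool.Agent.Helper82.SX
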