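import Pool.Agent.Helper82.SX.Sha
import Pool.Agent.Helper82.SX.Loc

/-!
# Project SX (helper82): locally geometric sections over a field with trivial 2-Selmer group
-/

set_option autoImplicit false
set_option linter.all false

open Polynomial IsDedekindDomain NumberField WeierstrassCurve
open scoped Classical

namespace Pool.Agent.Helper82.SX

open Pool.Agent.TH942 (sw)
open Pool.Agent.TH954
open Pool.Agent.W620.SC (unramified)

section geo

variable {K F M B : Type} [Field K] [CharZero K] [Field F] [Field M] [Field B] [Algebra K F]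
  [Algebra F M] [Algebra K M] [Algebra K B] [IsScalarTower K F M] [IsAlgClosure K B]
  [Algebra.IsAlgebraic F M]

theorem geo_of (s : GalSection K F M B) {L : Type} [Field L] [Algebra K L]
    (p : Plc K M (AlgebraicClosure L)) (hp : s.GivenBy L p) : GeoPlc (toSAct s) p := by
  intro σ τ hστ x
  refine hp σ ((eqv K B).autCongr τ) ?_ x _ ⟨x.2, rfl⟩
  intro z c hc
  obtain ⟨y, rfl⟩ := (eqv K B).surjective z
  have e1 : p.val ((toSAct s).j y) (p.iot (toSAct s).j y) := Plc.val_j _ y
  have e2 : p.val ((toSAct s).j (τ y)) (p.iot (toSAct s).j (τ y)) := Plc.val_j _ (τ y)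
  have e3 : s.j ((eqv K B).autCongr τ (eqv K B y)) = (toSAct s).j (τ y) := by
    change s.j (eqv K B (τ ((eqv K B).symm (eqv K B y)))) = _
    rw [AlgEquiv.symm_apply_apply]
    rfl
  have e4 : p.iot (toSAct s).j y = c := e1.unique hc
  rw [e3, ← e4, ← hστ y]
  exact e2

end geo

variable {K : Type} [Field K] [NumberField K] {a b : K}
variable {F Ω M B : Type} [Field F] [Field Ω] [Field M]
  [Field B] [Algebra K F] [Algebra F Ω] [Algebra K Ω] [IsScalarTower K F Ω] [Algebra F M]
  [Algebra K M] [IsScalarTower K F M] [Algebra K B] [IsAlgClosure F Ω] [IsAlgClosure K B]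

/-- **The image in the pro-2 fundamental group of the elliptic curve.** -/
theorem sec_core (hD : 4 * a ^ 3 + 27 * b ^ 2 ≠ 0)
    (hirr : Irreducible (X ^ 3 + C a * X + C b : K[X]))
    (hsel : Pool.Agent.N874.QM.SelM K (X ^ 3 + C a * X + C b))
    (U : Set (ValuationSubring F)) (hU : ∀ O ∈ U, ∀ c : K, algebraMap K F c ∈ O)
    (e : M →ₐ[F] Ω) (he : unramified F Ω U ≤ e.fieldRange)
    (P : ((sw a b).baseChange F).toAffine.Point) (s : GalSection K F M B)
    (p : ∀ v : HeightOneSpectrum (𝓞 K), Plc K M (AlgebraicClosure (v.adicCompletion K)))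
    (hp : ∀ v, s.GivenBy (v.adicCompletion K) (p v))
    (hinf : ∀ ξ : (AlgebraicClosure K ≃ₐ[K] AlgebraicClosure K) → AlgPt (sw a b) K,
      IsCocycle (sw a b) ξ → ∀ w : InfinitePlace K, TrivialOver (sw a b) ξ w.Completion) (n : ℕ) :
    ∃ Q : ((sw a b).baseChange M).toAffine.Point,
      2 ^ n • Q = pm (sw a b) (IsScalarTower.toAlgHom K F M) P ∧
      ∀ g : B ≃ₐ[K] B, pm (sw a b) ((s.s g : M →ₐ[F] M).restrictScalars K) Q = Q := by
  have hΩ1 : IsAlgClosed Ω := IsAlgClosure.isAlgClosed F
  have hΩ2 : Algebra.IsAlgebraic F Ω := IsAlgClosure.isAlgebraic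
  have hMalg : Algebra.IsAlgebraic F M := Algebra.IsAlgebraic.of_injective e e.injective
  have hcΩ : CharZero Ω := charZero_of_injective_algebraMap (algebraMap K Ω).injective
  set A := toSAct s with hA
  have hAF : ∀ (τ : AlgebraicClosure K ≃ₐ[K] AlgebraicClosure K) (x : F),
      A.s τ (algebraMap F M x) = algebraMap F M x :=
    fun τ x => (s.s ((eqv K B).autCongr τ)).commutes x
  set P' : ((sw a b).baseChange M).toAffine.Point :=
    pm (sw a b) (IsScalarTower.toAlgHom K F M) P with hP'
  have hP'f : ∀ τ, A.pt a b τ P' = P' := by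
    intro τ
    change pm (sw a b) _ (pm (sw a b) _ P) = pm (sw a b) _ P
    rw [pm_pm]
    congr 2
    apply AlgHom.ext
    intro x
    exact hAF τ x
  have hN : 1 ≤ 2 ^ n := Nat.one_le_two_pow
  obtain ⟨Q₀, hQ₀⟩ := exists_div_unram hD ((e.restrictScalars K).comp A.j) U hU e he P hN
  obtain ⟨ξ, hξ, hξN, hξj⟩ := exists_cocycle A hQ₀ hP'f
    (fun T hT => torsion_mem_sub hD (e.restrictScalars K) A.j (2 ^ n) hN T hT)
  have hloc : ∀ (L : Type) [Field L] [Algebra K L] (pl : Plc K M (AlgebraicClosure L)),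
      s.GivenBy L pl → TrivialOver (sw a b) ξ L := by
    intro L _ _ pl hpl
    haveI : CharZero L := charZero_of_injective_algebraMap (algebraMap K L).injective
    haveI : CharZero (AlgebraicClosure L) :=
      charZero_of_injective_algebraMap (algebraMap L (AlgebraicClosure L)).injective
    obtain ⟨red, h1, h2⟩ := exists_redM pl hD
    exact ⟨pl.iot A.j, red Q₀, (cocycle_local A (geo_of s pl hpl) h1 h2 hξj).1⟩
  obtain ⟨T, hT, hTξ⟩ := sha_trivial hD hirr hsel hξ hξN (fun v => hloc _ (p v) (hp v))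
    (hinf ξ hξ)
  refine ⟨Q₀ - pm (sw a b) A.j T, ?_, fun g => ?_⟩
  · have h1 : 2 ^ n • pm (sw a b) A.j T = 0 := by
      rw [← map_nsmul]
      exact (congrArg (pm (sw a b) A.j) hT).trans (map_zero _)
    rw [smul_sub, h1, sub_zero]
    exact hQ₀
  · have h1 : A.pt a b ((eqv K B).autCongr.symm g) (Q₀ - pm (sw a b) A.j T) =
        Q₀ - pm (sw a b) A.j T := by
      have h2 := hξj ((eqv K B).autCongr.symm g)
      have h3 : A.pt a b ((eqv K B).autCongr.symm g) (Q₀ - pm (sw a b) A.j T) =
          A.pt a b ((eqv K B).autCongr.symm g) Q₀ -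
          A.pt a b ((eqv K B).autCongr.symm g) (pm (sw a b) A.j T) := map_sub _ _ _
      rw [h3, A.pt_j]
      rw [hTξ, map_sub] at h2
      have h5 := eq_add_of_sub_eq h2.symm
      rw [h5]
      abel
    have h4 : A.pt a b ((eqv K B).autCongr.symm g) (Q₀ - pm (sw a b) A.j T) =
        pm (sw a b) ((s.s g : M →ₐ[F] M).restrictScalars K) (Q₀ - pm (sw a b) A.j T) := by
      unfold SAct.pt
      congr 2
      apply AlgHom.ext
      intro z
      exact toSAct_s s g z
    rw [← h4]
    exact h1

/-- **The places over two.** -/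
theorem sec_two (hD : 4 * a ^ 3 + 27 * b ^ 2 ≠ 0)
    (s : GalSection K F M B) [Algebra.IsAlgebraic F M]
    (P : ((sw a b).baseChange F).toAffine.Point)
    (hdiv : ∀ n : ℕ, ∃ Q : ((sw a b).baseChange M).toAffine.Point,
      2 ^ n • Q = pm (sw a b) (IsScalarTower.toAlgHom K F M) P ∧
      ∀ g : B ≃ₐ[K] B, pm (sw a b) ((s.s g : M →ₐ[F] M).restrictScalars K) Q = Q)
    {w : HeightOneSpectrum (𝓞 K)}
    (hw : Hyp (Valued.v : Valuation (w.adicCompletion K) (WithZero (Multiplicative ℤ)))
      (algebraMap K (w.adicCompletion K) a) (algebraMap K (w.adicCompletion K) b))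
    (p : Plc K M (AlgebraicClosure (w.adicCompletion K)))
    (hp : s.GivenBy (w.adicCompletion K) p) {x y : F}
    (h : ((sw a b).baseChange F).toAffine.Nonsingular x y) (hP : P = .some x y h) :
    algebraMap F M x ∉ p.W := by
  haveI : CharZero (w.adicCompletion K) :=
    charZero_of_injective_algebraMap (algebraMap K (w.adicCompletion K)).injective
  haveI : CharZero (AlgebraicClosure (w.adicCompletion K)) :=
    charZero_of_injective_algebraMap
      (algebraMap (w.adicCompletion K) (AlgebraicClosure (w.adicCompletion K))).injective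
  set A := toSAct s with hA
  obtain ⟨red, h1, h2⟩ := exists_redM p hD
  have hgeo := geo_of s p hp
  have hfix : ∀ Q : ((sw a b).baseChange M).toAffine.Point,
      (∀ g : B ≃ₐ[K] B, pm (sw a b) ((s.s g : M →ₐ[F] M).restrictScalars K) Q = Q) →
      ∃ z : ((sw a b).baseChange (w.adicCompletion K)).toAffine.Point,
        incl (sw a b) (w.adicCompletion K) z = red Q := by
    intro Q hQ
    refine exists_of_fixed _ (fun σ => ?_)
    obtain ⟨τ, hτ⟩ := exists_compat (p.iot A.j) σ
    have h3 := red_act (pl := p) (a := a) (b := b) (red := red) (map_zero red) h1 h2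
      ((A.s τ : M ≃ₐ[K] M) : M →ₐ[K] M)
      ((σ : AlgebraicClosure (w.adicCompletion K) →ₐ[w.adicCompletion K]
        AlgebraicClosure (w.adicCompletion K)).restrictScalars K)
      (fun x => hgeo σ τ hτ x) Q
    have h4 : pm (sw a b) ((A.s τ : M ≃ₐ[K] M) : M →ₐ[K] M) Q = Q :=
      hQ ((eqv K B).autCongr τ)
    rw [h4] at h3
    exact h3.symm
  obtain ⟨Q₀, hQ₀, hQ₀f⟩ := hdiv 0
  rw [pow_zero, one_smul] at hQ₀
  obtain ⟨z, hz⟩ := hfix Q₀ hQ₀f
  have hz0 : z = 0 := by
    refine hw.zero (W := (sw a b).baseChange (w.adicCompletion K)) ?_ z (fun n => ?_)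
    · refine WeierstrassCurve.ext ?_ ?_ ?_ ?_ ?_
      · change algebraMap K (w.adicCompletion K) 0 = 0
        exact map_zero _
      · change algebraMap K (w.adicCompletion K) 0 = 0
        exact map_zero _
      · change algebraMap K (w.adicCompletion K) 0 = 0
        exact map_zero _
      · rfl
      · rfl
    · obtain ⟨Q, hQ, hQf⟩ := hdiv n
      obtain ⟨t, ht⟩ := hfix Q hQf
      refine ⟨t, ?_⟩
      apply pm_injective (E := sw a b)
        (IsScalarTower.toAlgHom K (w.adicCompletion K) (AlgebraicClosure (w.adicCompletion K)))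
      rw [map_nsmul]
      change 2 ^ n • incl (sw a b) (w.adicCompletion K) t = incl (sw a b) (w.adicCompletion K) z
      rw [ht, hz, hQ₀, ← hQ, map_nsmul]
  intro hx
  have hr : red Q₀ = 0 := by
    rw [← hz, hz0]
    exact map_zero _
  rw [hQ₀, hP] at hr
  obtain ⟨h', e'⟩ := pm_some (E := sw a b) (IsScalarTower.toAlgHom K F M) h
  rw [e'] at hr
  obtain ⟨_, _, h5⟩ := h2 _ _ h' hx
  rw [h5] at hr
  exact Affine.Point.some_ne_zero _ hr

end Pool.Agent.Helper82.SX
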