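import Pool.Agent.Helper82.SX.Brg

/-!
# Project SX (helper82): cocycles of 2-power order

If the 2-Selmer group of `E` over `K` is trivial, then the locally trivial cocycles with values in the points
of order `2 ^ n` are coboundaries of points of order `2 ^ n`.
-/

set_option autoImplicit false
set_option linter.all false

open Polynomial IsDedekindDomain NumberField
open scoped Classical

namespace Pool.Agent.Helper82.SX

open Pool.Agent.TH942 (sw)
open Pool.Agent.TH954 (pm AlgPt Compat IsCocycle TrivialOver pm_pm pm_injective act incl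
  exists_of_fixed act_incl act_nsmul act_sub ns_sub)
open Pool.Agent.TH115.GD (Pt Sep Comp LocTriv IsCoc rs)
open Pool.Agent.N874.PP (sW)

theorem real_compat {K : Type} [Field K] [NumberField K] (ρ : K →+* ℝ) :
    ∃ (w : InfinitePlace K) (φ : w.Completion ≃+* ℝ),
      ∀ x : K, φ (algebraMap K w.Completion x) = ρ x := by
  let τ : K →+* ℂ := (algebraMap ℝ ℂ).comp ρ
  have hτ : ComplexEmbedding.IsReal τ := by
    rw [ComplexEmbedding.isReal_iff]
    ext x
    change (starRingEnd ℂ) ((ρ x : ℝ) : ℂ) = ((ρ x : ℝ) : ℂ)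
    exact Complex.conj_ofReal _
  have hw : (InfinitePlace.mk τ).IsReal := ⟨τ, hτ, rfl⟩
  refine ⟨InfinitePlace.mk τ, InfinitePlace.Completion.ringEquivRealOfIsReal hw, fun x => ?_⟩
  rw [InfinitePlace.Completion.ringEquivRealOfIsReal_apply]
  have h1 := InfinitePlace.Completion.extensionEmbeddingOfIsReal_coe hw
    ((WithAbs.equiv (InfinitePlace.mk τ).1).symm x)
  have h2 : InfinitePlace.Completion.extensionEmbeddingOfIsReal hw
      (algebraMap K (InfinitePlace.mk τ).Completion x) =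
      InfinitePlace.embedding_of_isReal hw x := h1
  rw [h2]
  have h3 : (InfinitePlace.mk τ).embedding = τ := InfinitePlace.embedding_mk_eq_of_isReal hτ
  have h4 : ((InfinitePlace.embedding_of_isReal hw x : ℝ) : ℂ) = (InfinitePlace.mk τ).embedding x :=
    InfinitePlace.embedding_of_isReal_apply hw x
  rw [h3] at h4
  exact Complex.ofReal_injective h4

variable {K : Type} [Field K] [NumberField K] {A B : K}

theorem sha_trivial (hd : 4 * A ^ 3 + 27 * B ^ 2 ≠ 0)
    (hirr : Irreducible (X ^ 3 + C A * X + C B : K[X]))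
    (hsel : Pool.Agent.N874.QM.SelM K (X ^ 3 + C A * X + C B)) {n : ℕ}
    {ξ : (AlgebraicClosure K ≃ₐ[K] AlgebraicClosure K) → AlgPt (sw A B) K}
    (hξ : IsCocycle (sw A B) ξ) (hn : ∀ σ, 2 ^ n • ξ σ = 0)
    (hfin : ∀ v : HeightOneSpectrum (𝓞 K), TrivialOver (sw A B) ξ (v.adicCompletion K))
    (hinf : ∀ w : InfinitePlace K, TrivialOver (sw A B) ξ w.Completion) :
    ∃ T : AlgPt (sw A B) K, 2 ^ n • T = 0 ∧ ∀ σ, ξ σ = act (sw A B) σ T - T := by
  have hselC := Pool.Agent.N874.TC.selc K A B hd hirr hsel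
  obtain ⟨hdiv, hsha⟩ := Pool.Agent.N713.QM.gfc K A B hd hselC
  have hloc : Pool.Agent.N874.QM.IsLoc (sW A B) (tr (sw A B) ξ) := by
    refine ⟨fun v => ?_, fun ρ => ?_⟩
    · haveI : CharZero (Comp (𝓞 K) K v) :=
        charZero_of_injective_algebraMap (algebraMap K (Comp (𝓞 K) K v)).injective
      exact tr_loc (sw A B) (L₁ := v.adicCompletion K) (L₂ := Comp (𝓞 K) K v) (RingEquiv.refl _)
        (fun x => rfl) (hfin v)
    · letI := ρ.toAlgebra
      obtain ⟨w, φ, hφ⟩ := real_compat ρ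
      exact tr_loc (sw A B) (L₁ := w.Completion) (L₂ := ℝ) φ (fun x => hφ x) (hinf w)
  have htor : ∀ σ, 2 ^ n • tr (sw A B) ξ σ = 0 := by
    intro σ
    have h1 := map_nsmul (pm (sw A B) ((eK K).symm : AlgebraicClosure K →ₐ[K] Sep K)) (2 ^ n)
      (ξ ((eK K).autCongr σ))
    rw [hn, map_zero] at h1
    exact h1.symm
  obtain ⟨Q, hQ⟩ := hsha (tr (sw A B) ξ) (tr_coc _ hξ) hloc ⟨n, 0, fun σ => by
    rw [map_zero, sub_zero]
    exact htor σ⟩
  obtain ⟨R, hR⟩ := tr_back (sw A B) hQ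
  have hfix : ∀ σ, act (sw A B) σ (2 ^ n • R) = 2 ^ n • R := by
    intro σ
    have h1 := hn σ
    rw [hR σ, ns_sub, sub_eq_zero] at h1
    rw [act_nsmul]
    exact h1
  obtain ⟨y, hy⟩ := exists_of_fixed (L := K) _ hfix
  have hdiv1 : ∀ P : ((sw A B).baseChange K).toAffine.Point,
      ∃ Q : ((sw A B).baseChange K).toAffine.Point, P = (2 : ℕ) • Q := hdiv
  have hdiv2 : ∀ m : ℕ, ∀ P : ((sw A B).baseChange K).toAffine.Point,
      ∃ Q : ((sw A B).baseChange K).toAffine.Point, P = 2 ^ m • Q := by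
    intro m
    induction m with
    | zero => exact fun P => ⟨P, by simp⟩
    | succ m ih =>
      intro P
      obtain ⟨Q, hQ⟩ := ih P
      obtain ⟨Q', hQ'⟩ := hdiv1 Q
      refine ⟨Q', ?_⟩
      rw [hQ, hQ', pow_succ, mul_smul]
  obtain ⟨y', hy'⟩ := hdiv2 n y
  refine ⟨R - incl (sw A B) K y', ?_, fun σ => ?_⟩
  · have e1 : (2 ^ n : ℕ) • incl (sw A B) K y' = incl (sw A B) K y := by
      have e2 : y = (2 ^ n : ℕ) • (y' : ((sw A B).baseChange K).toAffine.Point) := hy'
      rw [e2]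
      exact (map_nsmul (pm (sw A B) (IsScalarTower.toAlgHom K K (AlgebraicClosure K))) _ _).symm
    rw [ns_sub, e1, hy, sub_self]
  · rw [hR σ, act_sub, act_incl]
    abel

end Pool.Agent.Helper82.SX
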